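import Pool.Agent.E8helper22.MW.AP4
import Pool.Agent.Y23.G.An5
import Pool.Agent.W355.UN.Inst
import Pool.Agent.TH839.NA.Inst

/-!
# The explicit formula for Dirichlet L-functions
-/

set_option autoImplicit false

namespace Pool.Agent.E8helper22.MW

open MeasureTheory Set Filter Topology Complex
open scoped ComplexConjugate
open Pool.Agent.Y23.G Pool.Agent.TH839.NA Pool.Agent.W355.UN Pool.Agent.W355.LJ H353.E

lemma rawT_half {m r : ℕ} {N : ℝ} {a : Fin m → ℂ} {b c : ℕ → ℂ} {X : ℂ → ℂ}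
    (h : Raw m r N a b c X) (hc0 : c 0 = 0) : RawT (1 / 2) m r N a b c X :=
  ⟨h.hm, h.hr, h.hN, by norm_num, by norm_num, h.re_ge, h.entire, h.order, h.fe, h.one,
    fun n => by
      rcases Nat.eq_zero_or_pos n with rfl | hn
      · rw [hc0, norm_zero]
        positivity
      · have h1 : (1 : ℝ) ≤ (n : ℝ) ^ (1 / 2 : ℝ) :=
          Real.one_le_rpow (by exact_mod_cast hn) (by norm_num)
        have h2 := h.cb n
        have h3 : (0 : ℝ) ≤ m := Nat.cast_nonneg m
        nlinarith, h.conv, h.eq⟩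

/-- the data of a primitive Dirichlet L-function -/
lemma dir_data {q : ℕ} [NeZero q] (χ : DirichletCharacter ℂ q) (hq : 1 < q) (hχ : χ.IsPrimitive) :
    ∃ X : ℂ → ℂ, RawT (1 / 2) 1 0 q (fun _ => (parD χ : ℂ)) (fun n => χ (n : ZMod q))
      (fun n => χ (n : ZMod q)) X := by
  obtain ⟨X, hX⟩ := dir_raw q χ hq hχ
  refine ⟨X, ?_⟩
  have h1 := rawT_half hX (by
    have : ¬ IsUnit ((0 : ℕ) : ZMod q) := by
      have : Nontrivial (ZMod q) := by
        have : Fact (1 < q) := ⟨hq⟩
        infer_instance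
      simp
    exact χ.map_nonunit this)
  have e : (fun j : Fin ([(parD χ : ℂ)] : List ℂ).length => ([(parD χ : ℂ)] : List ℂ).get j) =
      fun _ => (parD χ : ℂ) := by
    funext j
    fin_cases j
    rfl
  rw [e] at h1
  exact h1

/-- the L-function object -/
noncomputable def LD {q : ℕ} (χ : DirichletCharacter ℂ q) (X : ℂ → ℂ)
    (h : RawT (1 / 2) 1 0 q (fun _ => (parD χ : ℂ)) (fun n => χ (n : ZMod q))
      (fun n => χ (n : ZMod q)) X) : LFun where
  m := 1
  r := 0
  N := q
  a := fun _ => (parD χ : ℂ)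
  b := fun n => χ (n : ZMod q)
  c := fun n => χ (n : ZMod q)
  X := X
  raw := h
  str := fun _ => by
    rw [ofReal_re]
    unfold parD
    split_ifs <;> norm_num

lemma parD_nn {q : ℕ} (χ : DirichletCharacter ℂ q) : 0 ≤ parD χ := by
  unfold parD
  split_ifs <;> norm_num

lemma parD_le {q : ℕ} (χ : DirichletCharacter ℂ q) : parD χ ≤ 1 := by
  unfold parD
  split_ifs <;> norm_num

/-- the archimedean factor of the completed function -/
noncomputable def gf {q : ℕ} (χ : DirichletCharacter ℂ q) (s : ℂ) : ℂ :=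
  (q : ℂ) ^ (s / 2) * Gammaℝ (s + parD χ)

lemma gammaR_an {s : ℂ} (hs : 0 < s.re) : DifferentiableAt ℂ Gammaℝ s := by
  have h1 : DifferentiableAt ℂ (fun s => (Gammaℝ s)⁻¹) s := differentiable_Gammaℝ_inv s
  have h2 : Gammaℝ s ≠ 0 := Gammaℝ_ne_zero_of_re_pos hs
  have h3 := h1.inv (inv_ne_zero h2)
  have e : (fun s => (Gammaℝ s)⁻¹)⁻¹ = Gammaℝ := by
    funext z
    simp
  rwa [e] at h3

lemma gf_an {q : ℕ} [NeZero q] (χ : DirichletCharacter ℂ q) {s : ℂ} (hs : 0 < s.re) :
    DifferentiableAt ℂ (gf χ) s := by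
  unfold gf
  have hp := parD_nn χ
  refine DifferentiableAt.mul ?_ ?_
  · have : (q : ℂ) ≠ 0 := by exact_mod_cast NeZero.ne q
    exact DifferentiableAt.const_cpow (by fun_prop) (Or.inl this)
  · have h1 : DifferentiableAt ℂ Gammaℝ (s + parD χ) := gammaR_an (by simp; linarith)
    have h2 : DifferentiableAt ℂ (fun s : ℂ => s + parD χ) s := by fun_prop
    exact DifferentiableAt.comp (g := Gammaℝ) (f := fun s : ℂ => s + parD χ) s h1 h2

lemma gf_ne {q : ℕ} [NeZero q] (χ : DirichletCharacter ℂ q) {s : ℂ} (hs : 0 < s.re) : gf χ s ≠ 0 := by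
  unfold gf
  have hp := parD_nn χ
  have : (q : ℂ) ≠ 0 := by exact_mod_cast NeZero.ne q
  refine mul_ne_zero ?_ (Gammaℝ_ne_zero_of_re_pos (by simp; linarith))
  rw [Ne, cpow_eq_zero_iff]
  tauto

lemma halfplane_open : IsOpen {s : ℂ | 0 < s.re} := isOpen_lt continuous_const continuous_re

/-- the completed function in the right half-plane -/
lemma X_eq {q : ℕ} [NeZero q] {χ : DirichletCharacter ℂ q} (h1 : χ ≠ 1) {X : ℂ → ℂ}
    (h : RawT (1 / 2) 1 0 q (fun _ => (parD χ : ℂ)) (fun n => χ (n : ZMod q))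
      (fun n => χ (n : ZMod q)) X) {s : ℂ} (hs : 0 < s.re) :
    X s = gf χ s * DirichletCharacter.LFunction χ s := by
  have hA : AnalyticOnNhd ℂ X {s : ℂ | 0 < s.re} := fun z _ => h.entire.analyticAt z
  have hB : AnalyticOnNhd ℂ (fun s => gf χ s * DirichletCharacter.LFunction χ s) {s : ℂ | 0 < s.re} := by
    have hd : DifferentiableOn ℂ (fun s => gf χ s * DirichletCharacter.LFunction χ s) {s : ℂ | 0 < s.re} := by
      intro z hz
      exact ((gf_an χ hz).mul
        ((DirichletCharacter.differentiable_LFunction h1) z)).differentiableWithinAt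
    exact hd.analyticOnNhd halfplane_open
  have hc : IsPreconnected {s : ℂ | 0 < s.re} := (convex_halfSpace_re_gt 0).isPreconnected
  have hev : X =ᶠ[𝓝 (2 : ℂ)] (fun s => gf χ s * DirichletCharacter.LFunction χ s) := by
    have ho : {s : ℂ | 3 / 2 < s.re} ∈ 𝓝 (2 : ℂ) :=
      (isOpen_lt continuous_const continuous_re).mem_nhds (by norm_num)
    filter_upwards [ho] with z hz
    have hz' : 3 / 2 < z.re := hz
    have e := h.eq' (s := z) (by linarith)
    rw [e, pow_zero, one_mul, gaf_eq]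
    unfold gf
    rw [DirichletCharacter.LFunction_eq_LSeries χ (by linarith)]
    simp
  exact hA.eqOn_of_preconnected_of_eventuallyEq hB hc (by norm_num : (0 : ℝ) < (2 : ℂ).re) hev hs

lemma ne_one_of_prim {q : ℕ} {χ : DirichletCharacter ℂ q} (hq : 1 < q) (hχ : χ.IsPrimitive) : χ ≠ 1 := by
  rintro rfl
  have : NeZero q := ⟨by omega⟩
  have h := hχ
  rw [DirichletCharacter.isPrimitive_def] at h
  rw [DirichletCharacter.conductor_one] at h
  omega

/-- the zeros of the completed function -/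
lemma X_zero_iff {q : ℕ} [NeZero q] {χ : DirichletCharacter ℂ q} (hq : 1 < q) (hχ : χ.IsPrimitive)
    {X : ℂ → ℂ} (h : RawT (1 / 2) 1 0 q (fun _ => (parD χ : ℂ)) (fun n => χ (n : ZMod q))
      (fun n => χ (n : ZMod q)) X) (s : ℂ) :
    X s = 0 ↔ DirichletCharacter.LFunction χ s = 0 ∧ 0 < s.re ∧ s.re < 1 := by
  have h1 := ne_one_of_prim hq hχ
  have hr : ∀ s : ℂ, 1 ≤ s.re → X s ≠ 0 := by
    intro s hs
    rw [X_eq h1 h (by linarith)]
    exact mul_ne_zero (gf_ne χ (by linarith))
      (DirichletCharacter.LFunction_ne_zero_of_one_le_re χ (Or.inl h1) hs)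
  constructor
  · intro h0
    have h2 : s.re < 1 := by
      by_contra hcon
      exact hr s (by linarith) h0
    have h3 : 0 < s.re := by
      by_contra hcon
      obtain ⟨ε, hε, hfe⟩ := h.fe
      have h4 := hfe s
      rw [h0] at h4
      have h5 : conj (X (1 - conj s)) = 0 := by
        rcases mul_eq_zero.1 h4.symm with h6 | h6
        · rw [h6, norm_zero] at hε
          norm_num at hε
        · exact h6
      refine hr (1 - conj s) (by simp; linarith) ?_
      simpa using h5
    refine ⟨?_, h3, h2⟩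
    rw [X_eq h1 h h3] at h0
    exact (mul_eq_zero.1 h0).resolve_left (gf_ne χ h3)
  · rintro ⟨h2, h3, h4⟩
    rw [X_eq h1 h h3, h2, mul_zero]

/-- the multiplicities -/
lemma X_mult {q : ℕ} [NeZero q] {χ : DirichletCharacter ℂ q} (hq : 1 < q) (hχ : χ.IsPrimitive)
    {X : ℂ → ℂ} (h : RawT (1 / 2) 1 0 q (fun _ => (parD χ : ℂ)) (fun n => χ (n : ZMod q))
      (fun n => χ (n : ZMod q)) X) {s : ℂ} (hs : 0 < s.re) :
    analyticOrderNatAt X s = analyticOrderNatAt (DirichletCharacter.LFunction χ) s := by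
  have h1 := ne_one_of_prim hq hχ
  have ho : {s : ℂ | 0 < s.re} ∈ 𝓝 s := halfplane_open.mem_nhds hs
  have hev : X =ᶠ[𝓝 s] (gf χ) * (DirichletCharacter.LFunction χ) := by
    filter_upwards [ho] with z hz
    exact X_eq h1 h hz
  have hg : AnalyticAt ℂ (gf χ) s := by
    have : DifferentiableOn ℂ (gf χ) {s : ℂ | 0 < s.re} := fun z hz => (gf_an χ hz).differentiableWithinAt
    exact this.analyticAt ho
  have hL : AnalyticAt ℂ (DirichletCharacter.LFunction χ) s :=
    (DirichletCharacter.differentiable_LFunction h1).analyticAt s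
  unfold analyticOrderNatAt
  rw [analyticOrderAt_congr hev, analyticOrderAt_mul hg hL,
    (hg.analyticOrderAt_eq_zero).2 (gf_ne χ hs), zero_add]

end Pool.Agent.E8helper22.MW
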