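import Pool.Agent.R399.TW.Shift

/-!
# A smoothed formula for the value of an entire function
-/

set_option autoImplicit false

namespace Pool.Agent.E8helper22.MW

open MeasureTheory Set Filter Topology Complex
open Pool.Agent.R399.TW (pt pt_re pt_im pt_cont Ph gd strip vshift vert_int bd_of_eventually
  kernel_id gauss_int norm_gauss gd_even gd_total gd_int gd_sub_int Ph_nn Ph_le_one gd_nn)

lemma Ph_refl (x : ℝ) : Ph x + Ph (-x) = 1 := by
  have h1 : Ph (-x) = ∫ u in Iic (0 : ℝ), gd (x - u) := by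
    have h2 := integral_comp_neg_Ioi (0 : ℝ) (fun u => gd (x - u))
    rw [neg_zero] at h2
    rw [← h2]
    unfold Ph
    refine setIntegral_congr_fun measurableSet_Ioi fun u _ => ?_
    change gd (-x - u) = gd (x - -u)
    rw [← gd_even]
    congr 1
    ring
  rw [h1, add_comm]
  unfold Ph
  rw [← setIntegral_union (Set.Iic_disjoint_Ioi le_rfl) measurableSet_Ioi (gd_sub_int x).integrableOn
      (gd_sub_int x).integrableOn, Iic_union_Ioi, setIntegral_univ,
    integral_sub_left_eq_self gd volume x, gd_total]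

lemma Ph_decay' {A : ℝ} (hA : 1 ≤ A) (x : ℝ) : Ph x ≤ Real.exp (A ^ 2 + A * x) := by
  unfold Ph
  have hb : ∀ u : ℝ, gd (x - u) ≤ Real.exp (A ^ 2 + A * x) * Real.exp (-A * u) := by
    intro u
    unfold gd
    have h1 : 1 / (2 * √Real.pi) ≤ 1 := by
      rw [div_le_one (by positivity)]
      have : 1 ≤ √Real.pi := Real.one_le_sqrt.2 (by linarith [Real.pi_gt_three])
      linarith
    rw [← Real.exp_add]
    have h2 : Real.exp (-(1 / 4) * (x - u) ^ 2) ≤ Real.exp (A ^ 2 + A * x + -A * u) := by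
      apply Real.exp_le_exp.2
      nlinarith [sq_nonneg ((x - u) / 2 + A)]
    have h3 := Real.exp_pos (-(1 / 4) * (x - u) ^ 2)
    calc 1 / (2 * √Real.pi) * Real.exp (-(1 / 4) * (x - u) ^ 2)
        ≤ 1 * Real.exp (-(1 / 4) * (x - u) ^ 2) := by gcongr
      _ ≤ _ := by rw [one_mul]; exact h2
  have hi : IntegrableOn (fun u : ℝ => Real.exp (A ^ 2 + A * x) * Real.exp (-A * u)) (Ioi 0) :=
    (exp_neg_integrableOn_Ioi 0 (by linarith : (0 : ℝ) < A)).const_mul _
  have h1 : ∫ u in Ioi 0, gd (x - u) ≤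
      ∫ u in Ioi (0 : ℝ), Real.exp (A ^ 2 + A * x) * Real.exp (-A * u) :=
    integral_mono (gd_sub_int x).integrableOn hi hb
  rw [integral_const_mul] at h1
  have h2 : ∫ u in Ioi (0 : ℝ), Real.exp (-A * u) = 1 / A := by
    have := integral_exp_mul_Ioi (a := -A) (by linarith) 0
    rw [this]
    simp
  rw [h2] at h1
  have h3 : 0 < Real.exp (A ^ 2 + A * x) := by positivity
  have h4 : 1 / A ≤ 1 := by
    rw [div_le_one (by linarith)]
    exact hA
  calc _ ≤ _ := h1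
    _ ≤ Real.exp (A ^ 2 + A * x) * 1 := by gcongr
    _ = _ := mul_one _

/-- the numerator of the kernel -/
noncomputable def KN (L : ℝ) (ρ z : ℂ) : ℂ := cexp ((z - ρ) ^ 2 + (L : ℂ) * (z - ρ))

lemma sub_eq_pt (x t : ℝ) (ρ : ℂ) : pt x t - ρ = pt (x - ρ.re) (t - ρ.im) := by
  apply Complex.ext <;> simp

lemma norm_KN (L : ℝ) (ρ : ℂ) (x t : ℝ) : ‖KN L ρ (pt x t)‖ =
    Real.exp ((x - ρ.re) ^ 2 + L * (x - ρ.re)) * Real.exp (-(t - ρ.im) ^ 2) := by
  unfold KN
  rw [sub_eq_pt, norm_gauss]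

lemma eq_pt (z : ℂ) : z = pt z.re z.im := by apply Complex.ext <;> simp

lemma KN_diff (L : ℝ) (ρ : ℂ) : Differentiable ℂ (KN L ρ) := by
  unfold KN; fun_prop

/-- the Gaussian beats exponentials -/
lemma gdec (A γ : ℝ) : ∃ C : ℝ, 0 ≤ C ∧ ∀ t : ℝ,
    Real.exp (A * |t|) * Real.exp (-(t - γ) ^ 2) ≤ C * Real.exp (-|t|) := by
  refine ⟨Real.exp ((|A| + 1) ^ 2 / 4 + (|A| + 1) * |γ|), (Real.exp_pos _).le, fun t => ?_⟩
  rw [← Real.exp_add, ← Real.exp_add]
  apply Real.exp_le_exp.2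
  have h1 : |t| ≤ |t - γ| + |γ| := by
    have := abs_add_le (t - γ) γ
    simpa using this
  have h2 : A ≤ |A| := le_abs_self A
  have h3 : 0 ≤ |A| := abs_nonneg A
  have h4 : (t - γ) ^ 2 = |t - γ| ^ 2 := (sq_abs _).symm
  rw [h4]
  have h5 : 0 ≤ |t| := abs_nonneg t
  have h6 : (A + 1) * |t| ≤ (|A| + 1) * |t| := by nlinarith
  have h7 : (|A| + 1) * |t| ≤ (|A| + 1) * (|t - γ| + |γ|) := by nlinarith
  nlinarith [sq_nonneg ((|A| + 1) / 2 - |t - γ|)]

lemma KN_bd (L A : ℝ) (ρ : ℂ) (a b : ℝ) : ∃ C : ℝ, 0 ≤ C ∧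
    ∀ z ∈ strip a b, Real.exp (A * |z.im|) * ‖KN L ρ z‖ ≤ C * Real.exp (-|z.im|) := by
  obtain ⟨C, hC0, hC⟩ := gdec A ρ.im
  set R := |a| + |b| + |ρ.re| with hR
  refine ⟨C * Real.exp (R ^ 2 + |L| * R), by positivity, fun z hz => ?_⟩
  have h3 := norm_KN L ρ z.re z.im
  rw [← eq_pt] at h3
  rw [h3]
  have h4 := hC z.im
  have h6 : |z.re - ρ.re| ≤ R := by
    have h7 := neg_abs_le a
    have h8 := le_abs_self b
    have h9 := neg_abs_le ρ.re
    have h10 := le_abs_self ρ.re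
    have h11 := abs_nonneg a
    have h12 := abs_nonneg b
    rw [abs_le]
    constructor <;> linarith [hz.1, hz.2]
  have h5 : Real.exp ((z.re - ρ.re) ^ 2 + L * (z.re - ρ.re)) ≤ Real.exp (R ^ 2 + |L| * R) := by
    apply Real.exp_le_exp.2
    have h7 : (z.re - ρ.re) ^ 2 ≤ R ^ 2 := sq_le_sq' (by linarith [(abs_le.1 h6).1]) (abs_le.1 h6).2
    have h8 : L * (z.re - ρ.re) ≤ |L| * R := by
      refine (le_abs_self _).trans ?_
      rw [abs_mul]
      exact mul_le_mul_of_nonneg_left h6 (abs_nonneg L)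
    linarith
  calc Real.exp (A * |z.im|) * (Real.exp ((z.re - ρ.re) ^ 2 + L * (z.re - ρ.re)) *
        Real.exp (-(z.im - ρ.im) ^ 2))
      = (Real.exp (A * |z.im|) * Real.exp (-(z.im - ρ.im) ^ 2)) *
        Real.exp ((z.re - ρ.re) ^ 2 + L * (z.re - ρ.re)) := by ring
    _ ≤ (C * Real.exp (-|z.im|)) * Real.exp (R ^ 2 + |L| * R) := by gcongr
    _ = _ := by ring

/-- the kernel on a vertical line -/
lemma line_int {L : ℝ} {ρ : ℂ} {b : ℝ} (hb : b ≠ ρ.re) :
    Integrable fun t : ℝ => KN L ρ (pt b t) / (pt b t - ρ) := by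
  have hne : ∀ t : ℝ, pt b t - ρ ≠ 0 := by
    intro t h
    have := congrArg Complex.re h
    simp at this
    exact hb (by linarith)
  have hc : Continuous fun t : ℝ => KN L ρ (pt b t) / (pt b t - ρ) := by
    refine Continuous.div ?_ ?_ hne
    · exact (KN_diff L ρ).continuous.comp (pt_cont b)
    · exact (pt_cont b).sub continuous_const
  obtain ⟨C, hC0, hC⟩ := KN_bd L 0 ρ b b
  have h0 : 0 < |b - ρ.re| := abs_pos.2 (sub_ne_zero.2 hb)
  refine ((Pool.Agent.R399.TW.exp_abs_int (c := 1) one_pos).const_mul (C / |b - ρ.re|)).mono'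
    hc.aestronglyMeasurable (Eventually.of_forall fun t => ?_)
  have h1 := hC (pt b t) ⟨by simp, by simp⟩
  rw [zero_mul, Real.exp_zero, one_mul, pt_im] at h1
  have h2 : |b - ρ.re| ≤ ‖pt b t - ρ‖ := by
    have := Complex.abs_re_le_norm (pt b t - ρ)
    simpa using this
  rw [norm_div]
  calc ‖KN L ρ (pt b t)‖ / ‖pt b t - ρ‖ ≤ (C * Real.exp (-|t|)) / |b - ρ.re| := by gcongr
    _ = _ := by rw [neg_one_mul]; ring

lemma line_right {L : ℝ} {ρ : ℂ} {b : ℝ} (hb : ρ.re < b) :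
    ∫ t : ℝ, KN L ρ (pt b t) / (pt b t - ρ) = 2 * Real.pi * ((Ph L : ℝ) : ℂ) := by
  have h1 := kernel_id (c := b - ρ.re) (by linarith) L
  rw [← h1, ← integral_sub_right_eq_self (fun t : ℝ => Complex.exp (pt (b - ρ.re) t ^ 2 +
    (L : ℂ) * pt (b - ρ.re) t) / pt (b - ρ.re) t) ρ.im]
  refine integral_congr_ae (Eventually.of_forall fun t => ?_)
  simp only [KN, sub_eq_pt]

lemma line_left {L : ℝ} {ρ : ℂ} {b : ℝ} (hb : b < ρ.re) :
    ∫ t : ℝ, KN L ρ (pt b t) / (pt b t - ρ) = -(2 * Real.pi * ((Ph (-L) : ℝ) : ℂ)) := by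
  have h1 := kernel_id (c := ρ.re - b) (by linarith) (-L)
  rw [← h1, ← integral_neg, ← integral_sub_left_eq_self (fun t : ℝ => -(Complex.exp
    (pt (ρ.re - b) t ^ 2 + ((-L : ℝ) : ℂ) * pt (ρ.re - b) t) / pt (ρ.re - b) t)) volume ρ.im]
  refine integral_congr_ae (Eventually.of_forall fun t => ?_)
  have h2 : pt (ρ.re - b) (ρ.im - t) = -(pt b t - ρ) := by
    apply Complex.ext <;> simp
  simp only [KN]
  rw [h2, div_neg, neg_neg]
  congr 2
  push_cast
  ring

/-- **the smoothed formula** -/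
theorem kernel_shift {G : ℂ → ℂ} (hG : Differentiable ℂ G) {a b B k : ℝ}
    (hB : ∀ z ∈ strip a b, ‖G z‖ ≤ B * Real.exp (k * |z.im|)) {ρ : ℂ} (h1 : a < ρ.re)
    (h2 : ρ.re < b) (L : ℝ) :
    2 * Real.pi * G ρ = (∫ t : ℝ, G (pt b t) * (KN L ρ (pt b t) / (pt b t - ρ))) -
      ∫ t : ℝ, G (pt a t) * (KN L ρ (pt a t) / (pt a t - ρ)) := by
  set f : ℂ → ℂ := fun z => dslope G ρ z * KN L ρ z with hf
  have hds : Differentiable ℂ (dslope G ρ) := by
    rw [← differentiableOn_univ]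
    exact (Complex.differentiableOn_dslope (univ_mem)).2 hG.differentiableOn
  have hfd : Differentiable ℂ f := hds.mul (KN_diff L ρ)
  have hds2 : ∀ z : ℂ, z ≠ ρ → dslope G ρ z = (G z - G ρ) / (z - ρ) := by
    intro z hz
    rw [dslope_of_ne _ hz, slope_def_field]
  obtain ⟨C₁, hC₁0, hC₁⟩ := KN_bd L k ρ a b
  obtain ⟨C₂, hC₂0, hC₂⟩ := KN_bd L 0 ρ a b
  have hB0 : 0 ≤ B := by
    have h3 := (norm_nonneg _).trans (hB (pt ρ.re 0) ⟨by simpa using h1.le, by simpa using h2.le⟩)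
    simp only [pt_im, abs_zero, mul_zero, Real.exp_zero, mul_one] at h3
    exact h3
  obtain ⟨C', hC'⟩ : ∃ C' : ℝ, ∀ z ∈ strip a b, ‖f z‖ ≤ C' * Real.exp (-|z.im|) := by
    refine bd_of_eventually (C := B * C₁ + ‖G ρ‖ * C₂) (T₀ := |ρ.im| + 1)
      hfd.continuous.continuousOn fun z hz hT => ?_
    have hz1 : 1 ≤ ‖z - ρ‖ := by
      have h3 := Complex.abs_im_le_norm (z - ρ)
      rw [sub_im] at h3
      have h4 := abs_sub_abs_le_abs_sub z.im ρ.im
      linarith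
    have hz2 : z ≠ ρ := by
      intro h
      rw [h, sub_self, norm_zero] at hz1
      linarith
    have h5 := hC₁ z hz
    have h6 := hC₂ z hz
    rw [zero_mul, Real.exp_zero, one_mul] at h6
    simp only [hf]
    rw [hds2 z hz2, norm_mul, norm_div]
    calc ‖G z - G ρ‖ / ‖z - ρ‖ * ‖KN L ρ z‖ ≤ (‖G z‖ + ‖G ρ‖) * ‖KN L ρ z‖ := by
          gcongr
          exact (div_le_self (norm_nonneg _) hz1).trans (norm_sub_le _ _)
      _ ≤ (B * Real.exp (k * |z.im|) + ‖G ρ‖) * ‖KN L ρ z‖ := by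
          gcongr
          exact hB z hz
      _ = B * (Real.exp (k * |z.im|) * ‖KN L ρ z‖) + ‖G ρ‖ * ‖KN L ρ z‖ := by ring
      _ ≤ B * (C₁ * Real.exp (-|z.im|)) + ‖G ρ‖ * (C₂ * Real.exp (-|z.im|)) := by gcongr
      _ = _ := by ring
  have hab : a ≤ b := by linarith
  have hsh := vshift hab hfd.continuous.continuousOn hfd.differentiableOn hC'
  -- the two lines
  have hline : ∀ c : ℝ, a ≤ c → c ≤ b → c ≠ ρ.re →
      (∫ t : ℝ, f (pt c t)) = (∫ t : ℝ, G (pt c t) * (KN L ρ (pt c t) / (pt c t - ρ))) -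
        G ρ * ∫ t : ℝ, KN L ρ (pt c t) / (pt c t - ρ) := by
    intro c hc1 hc2 hc3
    have hi := line_int (L := L) hc3
    have hne : ∀ t : ℝ, pt c t ≠ ρ := by
      intro t h
      have := congrArg Complex.re h
      simp at this
      exact hc3 this
    have e1 : ∀ t : ℝ, f (pt c t) = G (pt c t) * (KN L ρ (pt c t) / (pt c t - ρ)) -
        G ρ * (KN L ρ (pt c t) / (pt c t - ρ)) := by
      intro t
      simp only [hf]
      rw [hds2 _ (hne t)]
      ring
    have hif : Integrable fun t : ℝ => f (pt c t) := vert_int hc1 hc2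
      hfd.continuous.continuousOn hC'
    have hi2 : Integrable fun t : ℝ => G (pt c t) * (KN L ρ (pt c t) / (pt c t - ρ)) := by
      refine (hif.add (hi.const_mul (G ρ))).congr (Eventually.of_forall fun t => ?_)
      simp only [Pi.add_apply]
      rw [e1]
      ring
    simp_rw [e1]
    rw [integral_sub hi2 (hi.const_mul _), integral_const_mul]
  rw [hline a le_rfl hab (by linarith), hline b hab le_rfl (by linarith), line_right h2,
    line_left h1] at hsh
  have hP : ((Ph L : ℝ) : ℂ) + ((Ph (-L) : ℝ) : ℂ) = 1 := by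
    rw [← Complex.ofReal_add, Ph_refl, Complex.ofReal_one]
  linear_combination hsh + (2 * Real.pi * G ρ) * (-hP)

end Pool.Agent.E8helper22.MW
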