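import Pool.Agent.E8helper22.MW.BV4

/-!
# The coefficients of the mollified L-functions
-/

set_option autoImplicit false

namespace Pool.Agent.E8helper22.MW

open Finset Filter Topology

/-- the smoothing of the mollifier -/
noncomputable def Pm (v₁ v₂ : ℝ) (d : ℕ) : ℝ :=
  (max (v₂ - Real.log d) 0 - max (v₁ - Real.log d) 0) / (v₂ - v₁)

/-- the coefficients of the mollifier -/
noncomputable def lm (v₁ v₂ : ℝ) (d : ℕ) : ℝ := mu d * Pm v₁ v₂ d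

/-- the coefficients of the mollified L-function -/
noncomputable def cc (v₁ v₂ : ℝ) (n : ℕ) : ℝ := ∑ d ∈ n.divisors, lm v₁ v₂ d

lemma Pm_nn {v₁ v₂ : ℝ} (h : v₁ < v₂) (d : ℕ) : 0 ≤ Pm v₁ v₂ d := by
  unfold Pm
  have h1 : max (v₁ - Real.log d) 0 ≤ max (v₂ - Real.log d) 0 := max_le_max (by linarith) le_rfl
  exact div_nonneg (by linarith) (by linarith)

lemma Pm_le {v₁ v₂ : ℝ} (h : v₁ < v₂) (d : ℕ) : Pm v₁ v₂ d ≤ 1 := by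
  unfold Pm
  rw [div_le_one (by linarith)]
  have h1 : max (v₂ - Real.log d) 0 ≤ max (v₁ - Real.log d) 0 + (v₂ - v₁) := by
    apply max_le
    · have := le_max_left (v₁ - Real.log d) 0
      linarith
    · have := le_max_right (v₁ - Real.log d) 0
      linarith
  linarith

lemma Pm_one {v₁ v₂ : ℝ} (h : v₁ < v₂) {d : ℕ} (hd : Real.log d ≤ v₁) : Pm v₁ v₂ d = 1 := by
  unfold Pm
  rw [max_eq_left (by linarith), max_eq_left (by linarith), div_eq_one_iff_eq (by linarith)]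
  ring

lemma Pm_zero {v₁ v₂ : ℝ} (h : v₁ < v₂) {d : ℕ} (hd : v₂ ≤ Real.log d) : Pm v₁ v₂ d = 0 := by
  unfold Pm
  rw [max_eq_right (by linarith), max_eq_right (by linarith), sub_self, zero_div]

lemma abs_lm_le {v₁ v₂ : ℝ} (h : v₁ < v₂) (d : ℕ) : |lm v₁ v₂ d| ≤ 1 := by
  unfold lm
  rw [abs_mul, abs_of_nonneg (Pm_nn h d)]
  exact mul_le_one₀ (abs_mu_le d) (Pm_nn h d) (Pm_le h d)

lemma cc_eq (v₁ v₂ : ℝ) (n : ℕ) : cc v₁ v₂ n = (T1 v₂ n - T1 v₁ n) / (v₂ - v₁) := by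
  unfold cc T1 lm Pm
  rw [← Finset.sum_sub_distrib, Finset.sum_div]
  refine Finset.sum_congr rfl fun d _ => ?_
  ring

lemma cc_one {v₁ v₂ : ℝ} (h0 : 0 ≤ v₁) (h : v₁ < v₂) : cc v₁ v₂ 1 = 1 := by
  unfold cc lm
  rw [Nat.divisors_one, Finset.sum_singleton, mu_one, Pm_one h (by simpa using h0), one_mul]

lemma cc_small {v₁ v₂ : ℝ} (h : v₁ < v₂) {n : ℕ} (hn : 1 < n) (hn' : Real.log n ≤ v₁) :
    cc v₁ v₂ n = 0 := by
  have h1 : cc v₁ v₂ n = ∑ d ∈ n.divisors, mu d := by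
    unfold cc lm
    refine Finset.sum_congr rfl fun d hd => ?_
    have hd1 := Nat.pos_of_mem_divisors hd
    have h2 : Real.log d ≤ Real.log n := Real.log_le_log (by exact_mod_cast hd1)
      (by exact_mod_cast Nat.divisor_le hd)
    rw [Pm_one h (h2.trans hn'), mul_one]
  rw [h1, sum_mu_divisors, if_neg (by omega)]

lemma abs_cc_le {v₁ v₂ : ℝ} (h : v₁ < v₂) (n : ℕ) : |cc v₁ v₂ n| ≤ n := by
  unfold cc
  calc |∑ d ∈ n.divisors, lm v₁ v₂ d| ≤ ∑ d ∈ n.divisors, |lm v₁ v₂ d| :=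
        Finset.abs_sum_le_sum_abs _ _
    _ ≤ ∑ _d ∈ n.divisors, (1 : ℝ) := Finset.sum_le_sum fun d _ => abs_lm_le h d
    _ = (n.divisors.card : ℝ) := by simp
    _ ≤ n := by exact_mod_cast Nat.card_divisors_le_self n

theorem cc_sq {v₁ v₂ κ : ℝ} (h0 : 0 ≤ v₁) (h : v₁ < v₂) (hκ : 0 < κ) :
    Summable (fun n : ℕ => (n : ℝ) ^ (-(1 + κ)) * cc v₁ v₂ n ^ 2) ∧
    ∑' n : ℕ, (n : ℝ) ^ (-(1 + κ)) * cc v₁ v₂ n ^ 2 ≤
      4 * Cv * ((1 + κ * v₂) ^ 2 * (1 + v₂) * (1 + 1 / κ)) / (v₂ - v₁) ^ 2 := by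
  have hd : 0 < v₂ - v₁ := by linarith
  obtain ⟨s1, b1⟩ := T1_sq h0 hκ
  obtain ⟨s2, b2⟩ := T1_sq (h0.trans h.le) hκ
  have hle : ∀ n : ℕ, (n : ℝ) ^ (-(1 + κ)) * cc v₁ v₂ n ^ 2 ≤
      2 / (v₂ - v₁) ^ 2 * ((n : ℝ) ^ (-(1 + κ)) * T1 v₂ n ^ 2 + (n : ℝ) ^ (-(1 + κ)) * T1 v₁ n ^ 2) := by
    intro n
    rw [cc_eq, div_pow]
    have h1 : (T1 v₂ n - T1 v₁ n) ^ 2 ≤ 2 * (T1 v₂ n ^ 2 + T1 v₁ n ^ 2) := by
      nlinarith [sq_nonneg (T1 v₂ n + T1 v₁ n)]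
    have h2 : (0 : ℝ) ≤ (n : ℝ) ^ (-(1 + κ)) := by positivity
    calc (n : ℝ) ^ (-(1 + κ)) * ((T1 v₂ n - T1 v₁ n) ^ 2 / (v₂ - v₁) ^ 2)
        ≤ (n : ℝ) ^ (-(1 + κ)) * (2 * (T1 v₂ n ^ 2 + T1 v₁ n ^ 2) / (v₂ - v₁) ^ 2) := by gcongr
      _ = _ := by ring
  have hs := (s2.add s1).mul_left (2 / (v₂ - v₁) ^ 2)
  refine ⟨Summable.of_nonneg_of_le (fun n => by positivity) hle hs, ?_⟩
  refine (Summable.tsum_le_tsum hle (Summable.of_nonneg_of_le (fun n => by positivity) hle hs)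
    hs).trans ?_
  rw [tsum_mul_left, s2.tsum_add s1]
  have h1 : (1 + κ * v₁) ^ 2 * (1 + v₁) * (1 + 1 / κ) ≤ (1 + κ * v₂) ^ 2 * (1 + v₂) * (1 + 1 / κ) := by
    have : κ * v₁ ≤ κ * v₂ := mul_le_mul_of_nonneg_left h.le hκ.le
    have h2 : 0 ≤ κ * v₁ := mul_nonneg hκ.le h0
    gcongr
  have hC := Cv_pos
  calc _ ≤ 2 / (v₂ - v₁) ^ 2 * (Cv * ((1 + κ * v₂) ^ 2 * (1 + v₂) * (1 + 1 / κ)) +
        Cv * ((1 + κ * v₂) ^ 2 * (1 + v₂) * (1 + 1 / κ))) := by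
        gcongr
        exact b1.trans (by gcongr)
    _ = _ := by ring

end Pool.Agent.E8helper22.MW
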