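import Pool.Agent.E8helper22.MW.AP1
import Pool.Agent.E8helper22.MW.BV5
import Pool.Agent.H855R2.SF.Dir

/-!
# The smoothed formula for the mollified Dirichlet L-functions
-/

set_option autoImplicit false

namespace Pool.Agent.E8helper22.MW

open MeasureTheory Set Filter Topology Complex
open Pool.Agent.R399.TW (pt pt_re pt_im pt_cont Ph strip Ph_nn Ph_le_one)

/-- the mollifier -/
noncomputable def Mo (v₁ v₂ : ℝ) {q : ℕ} (χ : DirichletCharacter ℂ q) (s : ℂ) : ℂ :=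
  ∑ d ∈ Finset.Ioc 0 ⌊Real.exp v₂⌋₊, ((lm v₁ v₂ d : ℝ) : ℂ) * χ (d : ZMod q) * (d : ℂ) ^ (-s)

/-- the mollified L-function -/
noncomputable def GF (v₁ v₂ : ℝ) {q : ℕ} [NeZero q] (χ : DirichletCharacter ℂ q) (s : ℂ) : ℂ :=
  DirichletCharacter.LFunction χ s * Mo v₁ v₂ χ s

lemma Mo_diff (v₁ v₂ : ℝ) {q : ℕ} (χ : DirichletCharacter ℂ q) : Differentiable ℂ (Mo v₁ v₂ χ) := by
  unfold Mo
  refine Differentiable.fun_sum fun d hd => ?_
  rw [Finset.mem_Ioc] at hd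
  have hd0 : (d : ℂ) ≠ 0 := by
    have : d ≠ 0 := by omega
    exact_mod_cast this
  exact (differentiable_const _).mul ((differentiable_id.neg).const_cpow (Or.inl hd0))

lemma GF_diff {v₁ v₂ : ℝ} {q : ℕ} [NeZero q] {χ : DirichletCharacter ℂ q} (h1 : χ ≠ 1) :
    Differentiable ℂ (GF v₁ v₂ χ) :=
  (DirichletCharacter.differentiable_LFunction h1).mul (Mo_diff v₁ v₂ χ)

lemma lm_zero {v₁ v₂ : ℝ} (h : v₁ < v₂) {d : ℕ} (hd : ⌊Real.exp v₂⌋₊ < d) : lm v₁ v₂ d = 0 := by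
  have h2 := (Nat.floor_lt (Real.exp_pos v₂).le).1 hd
  have h3 : v₂ < Real.log d := by
    rw [Real.lt_log_iff_exp_lt (by exact_mod_cast (Nat.zero_le _).trans_lt hd)]
    exact h2
  unfold lm
  rw [Pm_zero h h3.le, mul_zero]

lemma Mo_series {v₁ v₂ : ℝ} (h : v₁ < v₂) {q : ℕ} (χ : DirichletCharacter ℂ q) (s : ℂ) :
    LSeriesSummable (fun n => ((lm v₁ v₂ n : ℝ) : ℂ) * χ (n : ZMod q)) s ∧
    LSeries (fun n => ((lm v₁ v₂ n : ℝ) : ℂ) * χ (n : ZMod q)) s = Mo v₁ v₂ χ s := by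
  set D := ⌊Real.exp v₂⌋₊ with hD
  have h1 : ∀ n ∉ Finset.Ioc 0 D,
      LSeries.term (fun n => ((lm v₁ v₂ n : ℝ) : ℂ) * χ (n : ZMod q)) s n = 0 := by
    intro n hn
    rw [Finset.mem_Ioc, not_and, not_le] at hn
    rcases Nat.eq_zero_or_pos n with rfl | hp
    · simp
    · rw [LSeries.term_of_ne_zero hp.ne', lm_zero h (hn hp)]
      simp
  refine ⟨summable_of_ne_finset_zero h1, ?_⟩
  unfold LSeries Mo
  rw [tsum_eq_sum h1]
  refine Finset.sum_congr rfl fun n hn => ?_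
  rw [Finset.mem_Ioc] at hn
  rw [LSeries.term_of_ne_zero (by omega), Complex.cpow_neg]
  rfl

/-- the coefficients -/
noncomputable def an (v₁ v₂ : ℝ) {q : ℕ} (χ : DirichletCharacter ℂ q) (n : ℕ) : ℂ :=
  ((cc v₁ v₂ n : ℝ) : ℂ) * χ (n : ZMod q)

lemma an_le {v₁ v₂ : ℝ} (h : v₁ < v₂) {q : ℕ} (χ : DirichletCharacter ℂ q) (n : ℕ) :
    ‖an v₁ v₂ χ n‖ ≤ n := by
  unfold an
  rw [norm_mul, Complex.norm_real, Real.norm_eq_abs]
  calc |cc v₁ v₂ n| * ‖χ (n : ZMod q)‖ ≤ n * 1 :=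
        mul_le_mul (abs_cc_le h n) (DirichletCharacter.norm_le_one χ _) (norm_nonneg _)
          (by positivity)
    _ = n := mul_one _

lemma an_zero (v₁ v₂ : ℝ) {q : ℕ} (χ : DirichletCharacter ℂ q) : an v₁ v₂ χ 0 = 0 := by
  unfold an cc
  simp

lemma GF_series {v₁ v₂ : ℝ} (h : v₁ < v₂) {q : ℕ} [NeZero q] {χ : DirichletCharacter ℂ q}
    {s : ℂ} (hs : 1 < s.re) : GF v₁ v₂ χ s = ∑' n : ℕ, an v₁ v₂ χ n * (n : ℂ) ^ (-s) := by
  unfold GF
  obtain ⟨h2, h3⟩ := Mo_series h χ s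
  rw [DirichletCharacter.LFunction_eq_LSeries χ hs, ← h3,
    ← LSeries_convolution' (DirichletCharacter.LSeriesSummable_of_one_lt_re χ hs) h2]
  unfold LSeries
  refine tsum_congr fun n => ?_
  rcases Nat.eq_zero_or_pos n with rfl | hp
  · rw [an_zero]
    simp
  rw [LSeries.term_of_ne_zero hp.ne', Complex.cpow_neg, div_eq_mul_inv]
  congr 1
  rw [LSeries.convolution_def]
  unfold an cc
  rw [Complex.ofReal_sum, Finset.sum_mul, ← Nat.sum_divisorsAntidiagonal' (fun _ d =>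
    ((lm v₁ v₂ d : ℝ) : ℂ) * χ (n : ZMod q))]
  refine Finset.sum_congr rfl fun p hp' => ?_
  rw [Nat.mem_divisorsAntidiagonal] at hp'
  rw [← hp'.1]
  push_cast
  rw [map_mul]
  ring

/-- the smoothed terms -/
noncomputable def sT (v₁ v₂ L : ℝ) {q : ℕ} (χ : DirichletCharacter ℂ q) (ρ : ℂ) (n : ℕ) : ℂ :=
  an v₁ v₂ χ n * (n : ℂ) ^ (-ρ) * ((Ph (L - Real.log n) : ℝ) : ℂ)

lemma KN_shift (L : ℝ) (ρ z : ℂ) {n : ℕ} (hn : n ≠ 0) :
    (n : ℂ) ^ (-z) * KN L ρ z = (n : ℂ) ^ (-ρ) * KN (L - Real.log n) ρ z := by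
  have h0 : (n : ℂ) ≠ 0 := by exact_mod_cast hn
  rw [Complex.cpow_def_of_ne_zero h0, Complex.cpow_def_of_ne_zero h0]
  unfold KN
  rw [← Complex.exp_add, ← Complex.exp_add, ← Complex.natCast_log]
  congr 1
  push_cast
  ring

lemma right_sum {v₁ v₂ : ℝ} (h : v₁ < v₂) {q : ℕ} [NeZero q] {χ : DirichletCharacter ℂ q}
    (L : ℝ) {ρ : ℂ} (hρ : ρ.re < 8) :
    Summable (sT v₁ v₂ L χ ρ) ∧
    ∫ t : ℝ, GF v₁ v₂ χ (pt 8 t) * (KN L ρ (pt 8 t) / (pt 8 t - ρ)) =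
      2 * Real.pi * ∑' n : ℕ, sT v₁ v₂ L χ ρ n := by
  set F : ℕ → ℝ → ℂ := fun n t => an v₁ v₂ χ n * (n : ℂ) ^ (-(pt 8 t)) *
    (KN L ρ (pt 8 t) / (pt 8 t - ρ)) with hF
  have hK : Integrable fun t : ℝ => KN L ρ (pt 8 t) / (pt 8 t - ρ) := line_int (by linarith)
  have hnorm : ∀ (n : ℕ) (t : ℝ), ‖F n t‖ ≤ (n : ℝ) ^ (-(7 : ℝ)) *
      ‖KN L ρ (pt 8 t) / (pt 8 t - ρ)‖ := by
    intro n t
    rcases Nat.eq_zero_or_pos n with rfl | hp
    · simp only [hF, an_zero, zero_mul, norm_zero]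
      positivity
    have hn0 : (0 : ℝ) < n := by exact_mod_cast hp
    simp only [hF]
    rw [norm_mul, norm_mul]
    refine mul_le_mul_of_nonneg_right ?_ (norm_nonneg _)
    rw [Complex.norm_natCast_cpow_of_pos hp, Complex.neg_re, pt_re]
    calc ‖an v₁ v₂ χ n‖ * (n : ℝ) ^ (-(8 : ℝ)) ≤ n * (n : ℝ) ^ (-(8 : ℝ)) :=
          mul_le_mul_of_nonneg_right (an_le h χ n) (by positivity)
      _ = (n : ℝ) ^ (-(7 : ℝ)) := by
          conv_lhs => rw [← Real.rpow_one (n : ℝ)]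
          rw [← Real.rpow_mul hn0.le, ← Real.rpow_add hn0]
          norm_num
  have hFc : ∀ n : ℕ, Continuous fun t : ℝ => an v₁ v₂ χ n * (n : ℂ) ^ (-(pt 8 t)) := by
    intro n
    rcases Nat.eq_zero_or_pos n with rfl | hp
    · simp only [an_zero, zero_mul]
      exact continuous_const
    · have h0 : (n : ℂ) ≠ 0 := by exact_mod_cast hp.ne'
      exact continuous_const.mul ((pt_cont 8).neg.const_cpow (Or.inl h0))
  have hFi : ∀ n : ℕ, Integrable (F n) := by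
    intro n
    refine (hK.norm.const_mul ((n : ℝ) ^ (-(7 : ℝ)))).mono'
      ((hFc n).aestronglyMeasurable.mul hK.aestronglyMeasurable)
      (Eventually.of_forall fun t => hnorm n t)
  have hs7 : Summable fun n : ℕ => (n : ℝ) ^ (-(7 : ℝ)) :=
    Real.summable_nat_rpow.2 (by norm_num)
  have hsum : Summable fun n : ℕ => ∫ t, ‖F n t‖ := by
    refine Summable.of_nonneg_of_le (fun n => integral_nonneg fun t => norm_nonneg _)
      (fun n => ?_) (hs7.mul_right (∫ t : ℝ, ‖KN L ρ (pt 8 t) / (pt 8 t - ρ)‖))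
    rw [← integral_const_mul]
    exact integral_mono (hFi n).norm (hK.norm.const_mul _) fun t => hnorm n t
  have hH := hasSum_integral_of_summable_integral_norm hFi hsum
  have hterm : ∀ n : ℕ, ∫ t, F n t = 2 * Real.pi * sT v₁ v₂ L χ ρ n := by
    intro n
    rcases Nat.eq_zero_or_pos n with rfl | hp
    · simp only [hF, sT, an_zero, zero_mul, integral_zero, mul_zero]
    have e1 : ∀ t : ℝ, F n t = an v₁ v₂ χ n * (n : ℂ) ^ (-ρ) *
        (KN (L - Real.log n) ρ (pt 8 t) / (pt 8 t - ρ)) := by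
      intro t
      simp only [hF]
      have := KN_shift L ρ (pt 8 t) hp.ne'
      rw [mul_assoc, ← mul_div_assoc, this]
      ring
    simp_rw [e1]
    rw [integral_const_mul, line_right hρ]
    unfold sT
    ring
  simp_rw [hterm] at hH
  have hpi : (2 * Real.pi : ℂ) ≠ 0 := by
    have := Real.pi_pos.ne'
    exact mul_ne_zero two_ne_zero (by exact_mod_cast this)
  have hS : Summable (sT v₁ v₂ L χ ρ) := (summable_mul_left_iff hpi).1 hH.summable
  refine ⟨hS, ?_⟩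
  rw [← tsum_mul_left, hH.tsum_eq]
  refine integral_congr_ae (Eventually.of_forall fun t => ?_)
  simp only [hF]
  rw [GF_series h (by rw [pt_re]; norm_num), tsum_mul_right]

lemma L_growth {q : ℕ} [NeZero q] {χ : DirichletCharacter ℂ q} (hq : 1 < q) (hχ : χ.IsPrimitive) :
    ∃ B : ℝ, 0 ≤ B ∧ ∀ z ∈ strip (-1 / 4) 8,
      ‖DirichletCharacter.LFunction χ z‖ ≤ B * Real.exp (2 * |z.im|) := by
  have h1 := H855R2.SF.ne_one_of_prim hq hχ
  have hq0 : (1 : ℝ) ≤ q := by exact_mod_cast hq.le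
  have hright : ∀ z : ℂ, 1 / 4 ≤ z.re → z.re ≤ 8 →
      ‖DirichletCharacter.LFunction χ z‖ ≤ 32 * (q + 1) * Real.exp |z.im| := by
    intro z hz1 hz2
    have h2 := H855R2.SF.growth_right h1 (s := z) (by linarith)
    have h3 : ‖z‖ ≤ 8 + |z.im| := by
      refine (Complex.norm_le_abs_re_add_abs_im z).trans ?_
      rw [abs_of_nonneg (by linarith : (0 : ℝ) ≤ z.re)]
      linarith
    have h4 : 8 + |z.im| ≤ 8 * Real.exp |z.im| := by
      have := Real.add_one_le_exp |z.im|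
      have := abs_nonneg z.im
      linarith
    have h5 : ((q : ℝ) + 1) / z.re ≤ 4 * (q + 1) := by
      rw [div_le_iff₀ (by linarith)]
      nlinarith
    calc _ ≤ ‖z‖ * (((q : ℝ) + 1) / z.re) := h2
      _ ≤ (8 * Real.exp |z.im|) * (4 * (q + 1)) := by gcongr; linarith
      _ = _ := by ring
  refine ⟨32 * q * (32 * (q + 1)) + 32 * (q + 1), by positivity, fun z hz => ?_⟩
  have he : Real.exp |z.im| ≤ Real.exp (2 * |z.im|) := by
    apply Real.exp_le_exp.2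
    have := abs_nonneg z.im
    linarith
  rcases le_or_gt (1 / 4) z.re with h | h
  · refine (hright z h hz.2).trans ?_
    have : 0 ≤ 32 * (q : ℝ) * (32 * (q + 1)) * Real.exp (2 * |z.im|) := by positivity
    nlinarith
  · set x := 1 / 2 - z.re with hx
    have hx0 : 1 / 4 ≤ x := by rw [hx]; linarith
    have hx1 : x ≤ 3 / 4 := by rw [hx]; linarith [hz.1]
    have h2 := H855R2.SF.refl_dir hq hχ (x := x) (t := z.im) (by linarith) hx1
    have e1 : (⟨1 / 2 - x, z.im⟩ : ℂ) = z := by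
      apply Complex.ext
      · simp [hx]
      · rfl
    rw [e1] at h2
    have h3 := hright ⟨1 / 2 + x, z.im⟩ (by simp only; linarith) (by simp only; linarith)
    simp only at h3
    have h4 : ((q : ℝ) * (1 + |z.im|)) ^ x ≤ q * Real.exp |z.im| := by
      have h5 : 1 ≤ (q : ℝ) * (1 + |z.im|) := by
        have := abs_nonneg z.im
        nlinarith
      calc ((q : ℝ) * (1 + |z.im|)) ^ x ≤ ((q : ℝ) * (1 + |z.im|)) ^ (1 : ℝ) :=
            Real.rpow_le_rpow_of_exponent_le h5 (by linarith)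
        _ = q * (1 + |z.im|) := Real.rpow_one _
        _ ≤ _ := by
            have := Real.add_one_le_exp |z.im|
            gcongr
            linarith
    calc _ ≤ 32 * ((q : ℝ) * (1 + |z.im|)) ^ x *
          ‖DirichletCharacter.LFunction χ ⟨1 / 2 + x, z.im⟩‖ := h2
      _ ≤ 32 * (q * Real.exp |z.im|) * (32 * (q + 1) * Real.exp |z.im|) := by gcongr
      _ = 32 * q * (32 * (q + 1)) * Real.exp (2 * |z.im|) := by
          rw [two_mul, Real.exp_add]; ring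
      _ ≤ _ := by
          have : 0 ≤ 32 * ((q : ℝ) + 1) * Real.exp (2 * |z.im|) := by positivity
          nlinarith

lemma Mo_le {v₁ v₂ : ℝ} (h : v₁ < v₂) {q : ℕ} (χ : DirichletCharacter ℂ q) :
    ∃ B : ℝ, 0 ≤ B ∧ ∀ z ∈ strip (-1 / 4) 8, ‖Mo v₁ v₂ χ z‖ ≤ B := by
  refine ⟨∑ d ∈ Finset.Ioc 0 ⌊Real.exp v₂⌋₊, (d : ℝ), by positivity, fun z hz => ?_⟩
  unfold Mo
  refine (norm_sum_le _ _).trans (Finset.sum_le_sum fun d hd => ?_)
  rw [Finset.mem_Ioc] at hd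
  have hd1 : (1 : ℝ) ≤ d := by exact_mod_cast hd.1
  rw [norm_mul, norm_mul, Complex.norm_natCast_cpow_of_pos hd.1, Complex.norm_real,
    Real.norm_eq_abs, Complex.neg_re]
  calc |lm v₁ v₂ d| * ‖χ (d : ZMod q)‖ * (d : ℝ) ^ (-z.re) ≤ 1 * 1 * (d : ℝ) ^ (1 : ℝ) := by
        gcongr
        · exact abs_lm_le h d
        · exact DirichletCharacter.norm_le_one χ _
        · linarith [hz.1]
    _ = d := by rw [one_mul, one_mul, Real.rpow_one]

/-- **the smoothed formula** -/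
theorem GF_formula {v₁ v₂ : ℝ} (h : v₁ < v₂) {q : ℕ} [NeZero q] {χ : DirichletCharacter ℂ q}
    (hq : 1 < q) (hχ : χ.IsPrimitive) (L : ℝ) {ρ : ℂ} (h1 : -1 / 4 < ρ.re) (h2 : ρ.re < 8) :
    2 * Real.pi * GF v₁ v₂ χ ρ = 2 * Real.pi * ∑' n : ℕ, sT v₁ v₂ L χ ρ n -
      ∫ t : ℝ, GF v₁ v₂ χ (pt (-1 / 4) t) *
        (KN L ρ (pt (-1 / 4) t) / (pt (-1 / 4) t - ρ)) := by
  obtain ⟨B, hB0, hB⟩ := L_growth hq hχ
  obtain ⟨B', hB'0, hB'⟩ := Mo_le h χ
  have hG : ∀ z ∈ strip (-1 / 4) 8, ‖GF v₁ v₂ χ z‖ ≤ (B * B') * Real.exp (2 * |z.im|) := by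
    intro z hz
    unfold GF
    rw [norm_mul]
    calc _ ≤ (B * Real.exp (2 * |z.im|)) * B' := by
          gcongr
          · exact hB z hz
          · exact hB' z hz
      _ = _ := by ring
  have hne := H855R2.SF.ne_one_of_prim hq hχ
  rw [kernel_shift (GF_diff hne) hG h1 h2 L, (right_sum h L h2).2]

end Pool.Agent.E8helper22.MW
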