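import Pool.Agent.E8helper22.MW.AP2
import Pool.Agent.Helper112.MultLS
import Pool.Agent.H385R2.Defs4

/-!
# The family of the primitive characters and the large sieve
-/

set_option autoImplicit false

namespace Pool.Agent.E8helper22.MW

open Finset

/-- a Dirichlet character with its modulus -/
abbrev DCh : Type := Σ q : ℕ, DirichletCharacter ℂ q

open Classical in
/-- the primitive characters of conductor `X < q ≤ Y` -/
noncomputable def Ix (X Y : ℕ) : Finset DCh :=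
  (Ioc X Y).sigma fun q => (univ : Finset (DirichletCharacter ℂ q)).filter fun χ => χ.IsPrimitive

lemma mem_Ix {X Y : ℕ} {i : DCh} : i ∈ Ix X Y ↔ (X < i.1 ∧ i.1 ≤ Y) ∧ i.2.IsPrimitive := by
  classical
  unfold Ix
  simp only [Finset.mem_sigma, mem_Ioc, Finset.mem_filter, Finset.mem_univ, true_and]

/-- the weighted sum over the family -/
noncomputable def Ew (X Y : ℕ) (f : DCh → ℝ) : ℝ := ∑ i ∈ Ix X Y, 1 / (i.1 : ℝ) ^ 2 * f i

lemma Ew_mono {X Y : ℕ} {f g : DCh → ℝ} (h : ∀ i ∈ Ix X Y, f i ≤ g i) : Ew X Y f ≤ Ew X Y g :=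
  Finset.sum_le_sum fun i hi => mul_le_mul_of_nonneg_left (h i hi) (by positivity)

lemma Ew_nn {X Y : ℕ} {f : DCh → ℝ} (h : ∀ i ∈ Ix X Y, 0 ≤ f i) : 0 ≤ Ew X Y f :=
  Finset.sum_nonneg fun i hi => mul_nonneg (by positivity) (h i hi)

lemma Ew_add (X Y : ℕ) (f g : DCh → ℝ) : Ew X Y (fun i => f i + g i) = Ew X Y f + Ew X Y g := by
  unfold Ew
  rw [← Finset.sum_add_distrib]
  exact Finset.sum_congr rfl fun i _ => by ring

lemma Ew_sub (X Y : ℕ) (f g : DCh → ℝ) : Ew X Y (fun i => f i - g i) = Ew X Y f - Ew X Y g := by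
  unfold Ew
  rw [← Finset.sum_sub_distrib]
  exact Finset.sum_congr rfl fun i _ => by ring

lemma Ew_smul (X Y : ℕ) (c : ℝ) (f : DCh → ℝ) : Ew X Y (fun i => c * f i) = c * Ew X Y f := by
  unfold Ew
  rw [Finset.mul_sum]
  exact Finset.sum_congr rfl fun i _ => by ring

lemma Ew_sum {ι : Type*} (X Y : ℕ) (s : Finset ι) (f : ι → DCh → ℝ) :
    Ew X Y (fun i => ∑ j ∈ s, f j i) = ∑ j ∈ s, Ew X Y (f j) := by
  unfold Ew
  rw [Finset.sum_comm]
  exact Finset.sum_congr rfl fun i _ => by rw [Finset.mul_sum]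

lemma Ew_congr {X Y : ℕ} {f g : DCh → ℝ} (h : ∀ i ∈ Ix X Y, f i = g i) : Ew X Y f = Ew X Y g :=
  Finset.sum_congr rfl fun i hi => by rw [h i hi]

open Classical in
lemma Ew_eq (X Y : ℕ) (f : (q : ℕ) → DirichletCharacter ℂ q → ℝ) :
    H385.primFam X Y f = Ew X Y (fun i => f i.1 i.2) := by
  unfold H385.primFam Ew Ix
  rw [Finset.sum_sigma]
  refine Finset.sum_congr rfl fun q hq => ?_
  rw [mem_Ioc] at hq
  rw [finsum_eq_sum_of_fintype]
  dsimp only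
  rw [← Finset.mul_sum]
  congr 1
  symm
  apply Finset.sum_subtype
  intro χ
  simp

/-- the sum of `1/q` -/
lemma sum_inv_Ioc {X : ℕ} (hX : 1 ≤ X) {Y : ℕ} (hXY : X ≤ Y) :
    ∑ q ∈ Ioc X Y, 1 / (q : ℝ) ≤ Real.log ((Y : ℝ) / X) := by
  induction Y, hXY using Nat.le_induction with
  | base =>
    have : (X : ℝ) ≠ 0 := by positivity
    simp [div_self this]
  | succ n hn ih =>
    rw [Finset.sum_Ioc_succ_top hn]
    have hX0 : (0 : ℝ) < X := by exact_mod_cast hX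
    have hn0 : (0 : ℝ) < n := by exact_mod_cast lt_of_lt_of_le hX hn
    have h1 : Real.log (((n + 1 : ℕ) : ℝ) / X) = Real.log ((n : ℝ) / X) - Real.log ((n : ℝ) / (n + 1)) := by
      push_cast
      rw [Real.log_div (by positivity) hX0.ne', Real.log_div hn0.ne' hX0.ne',
        Real.log_div hn0.ne' (by positivity)]
      ring
    have h2 := Real.log_le_sub_one_of_pos (x := (n : ℝ) / (n + 1)) (by positivity)
    have h3 : (n : ℝ) / (n + 1) - 1 = -(1 / ((n + 1 : ℕ) : ℝ)) := by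
      push_cast
      field_simp
      ring
    linarith

lemma sum_inv_Ico {X : ℕ} (hX : 1 ≤ X) {Y : ℕ} (hXY : X ≤ Y) :
    ∑ q ∈ Ico X Y, 1 / (q : ℝ) ≤ 1 + Real.log ((Y : ℝ) / X) := by
  have h1 : (1 : ℝ) ≤ X := by exact_mod_cast hX
  have h2 : Ico X Y ⊆ insert X (Ioc X Y) := by
    intro q hq
    rw [mem_Ico] at hq
    rw [Finset.mem_insert, mem_Ioc]
    omega
  calc ∑ q ∈ Ico X Y, 1 / (q : ℝ) ≤ ∑ q ∈ insert X (Ioc X Y), 1 / (q : ℝ) :=
        Finset.sum_le_sum_of_subset_of_nonneg h2 fun _ _ _ => by positivity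
    _ = 1 / (X : ℝ) + ∑ q ∈ Ioc X Y, 1 / (q : ℝ) := by rw [Finset.sum_insert (by simp)]
    _ ≤ _ := by
        have h3 := sum_inv_Ioc hX hXY
        have h4 : 1 / (X : ℝ) ≤ 1 := by rw [div_le_one (by linarith)]; exact h1
        linarith

/-- Abel summation -/
lemma abel_sq (S : ℕ → ℝ) {X : ℕ} (hX : 1 ≤ X) {Y : ℕ} (hXY : X ≤ Y) :
    ∑ q ∈ Ioc X Y, 1 / (q : ℝ) ^ 2 * S q = (∑ q ∈ Ioc X Y, S q) / (Y : ℝ) ^ 2 +
      ∑ q ∈ Ico X Y, (∑ r ∈ Ioc X q, S r) * (1 / (q : ℝ) ^ 2 - 1 / ((q : ℝ) + 1) ^ 2) := by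
  induction Y, hXY using Nat.le_induction with
  | base => simp
  | succ n hn ih =>
    rw [Finset.sum_Ioc_succ_top hn, Finset.sum_Ioc_succ_top hn, Finset.sum_Ico_succ_top hn, ih]
    push_cast
    ring

open Classical in
/-- **the large sieve with weights** -/
theorem Ew_ls {X Y : ℕ} (hX : 1 ≤ X) (hXY : X ≤ Y) (N : ℕ) (b : ℕ → ℂ) :
    Ew X Y (fun i => ‖∑ n ∈ Icc 1 N, b n * i.2 (n : ZMod i.1)‖ ^ 2) ≤
      18 * (1 + Real.log ((Y : ℝ) / X)) * (1 + N / (X : ℝ) ^ 2) * ∑ n ∈ Icc 1 N, ‖b n‖ ^ 2 := by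
  set B := ∑ n ∈ Icc 1 N, ‖b n‖ ^ 2 with hB
  have hB0 : 0 ≤ B := Finset.sum_nonneg fun _ _ => by positivity
  set S : ℕ → ℝ := fun q => ∑ χ ∈ (univ : Finset (DirichletCharacter ℂ q)).filter
    (fun χ => χ.IsPrimitive), ‖∑ n ∈ Icc 1 N, b n * χ (n : ZMod q)‖ ^ 2 with hS
  have hS0 : ∀ q, 0 ≤ S q := fun q => Finset.sum_nonneg fun _ _ => by positivity
  have hX1 : (1 : ℝ) ≤ X := by exact_mod_cast hX
  have hXY' : (X : ℝ) ≤ Y := by exact_mod_cast hXY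
  have h1 : Ew X Y (fun i => ‖∑ n ∈ Icc 1 N, b n * i.2 (n : ZMod i.1)‖ ^ 2) =
      ∑ q ∈ Ioc X Y, 1 / (q : ℝ) ^ 2 * S q := by
    unfold Ew Ix
    rw [Finset.sum_sigma]
    refine Finset.sum_congr rfl fun q _ => ?_
    dsimp only
    rw [← Finset.mul_sum]
  have hA : ∀ Q : ℕ, ∑ q ∈ Ioc X Q, S q ≤ 6 * (N + (Q : ℝ) ^ 2) * B := by
    intro Q
    refine le_trans ?_ (Pool.Agent.Helper112.mult_large_sieve N Q b)
    calc ∑ q ∈ Ioc X Q, S q ≤ ∑ q ∈ Ioc X Q, ((q : ℝ) / (Nat.totient q : ℝ)) * S q := by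
          refine Finset.sum_le_sum fun q hq => ?_
          rw [mem_Ioc] at hq
          have h0 : (0 : ℝ) < Nat.totient q := by exact_mod_cast Nat.totient_pos.2 (by omega)
          have h1 : (Nat.totient q : ℝ) ≤ q := by exact_mod_cast Nat.totient_le q
          have h2 : 1 ≤ (q : ℝ) / (Nat.totient q : ℝ) := by rwa [le_div_iff₀ h0, one_mul]
          exact le_mul_of_one_le_left (hS0 q) h2
      _ ≤ _ := by
          refine Finset.sum_le_sum_of_subset_of_nonneg ?_ fun q _ _ => ?_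
          · intro q hq
            rw [mem_Ioc] at hq
            rw [mem_Icc]
            omega
          · exact mul_nonneg (by positivity) (hS0 q)
  rw [h1, abel_sq S hX hXY]
  have hY0 : (0 : ℝ) < Y := by linarith
  have hX0 : (0 : ℝ) < X := by linarith
  have hN0 : (0 : ℝ) ≤ N := by positivity
  have h2 : (∑ q ∈ Ioc X Y, S q) / (Y : ℝ) ^ 2 ≤ 6 * (1 + N / (X : ℝ) ^ 2) * B := by
    rw [div_le_iff₀ (by positivity)]
    refine (hA Y).trans ?_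
    have h3 : (N : ℝ) ≤ N / (X : ℝ) ^ 2 * (Y : ℝ) ^ 2 := by
      rw [div_mul_eq_mul_div, le_div_iff₀ (by positivity)]
      gcongr
    calc 6 * (N + (Y : ℝ) ^ 2) * B ≤ 6 * (N / (X : ℝ) ^ 2 * (Y : ℝ) ^ 2 + (Y : ℝ) ^ 2) * B := by gcongr
      _ = _ := by ring
  have h3 : ∀ q ∈ Ico X Y, (∑ r ∈ Ioc X q, S r) * (1 / (q : ℝ) ^ 2 - 1 / ((q : ℝ) + 1) ^ 2) ≤
      12 * (1 + N / (X : ℝ) ^ 2) * B * (1 / (q : ℝ)) := by
    intro q hq
    rw [mem_Ico] at hq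
    have hXq : (X : ℝ) ≤ q := by exact_mod_cast hq.1
    have hq0 : (0 : ℝ) < q := by linarith
    have h4 : 1 / (q : ℝ) ^ 2 - 1 / ((q : ℝ) + 1) ^ 2 ≤ 2 / (q : ℝ) ^ 3 := by
      rw [sub_le_iff_le_add, ← sub_le_iff_le_add', div_sub_div _ _ (by positivity) (by positivity),
        div_le_div_iff₀ (by positivity) (by positivity)]
      have : (1 * (q : ℝ) ^ 3 - (q : ℝ) ^ 2 * 2) * ((q : ℝ) + 1) ^ 2 ≤
          1 * ((q : ℝ) ^ 2 * (q : ℝ) ^ 3) := by nlinarith [pow_pos hq0 2, pow_pos hq0 3, pow_pos hq0 4]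
      linarith
    have h5 : 0 ≤ 1 / (q : ℝ) ^ 2 - 1 / ((q : ℝ) + 1) ^ 2 := by
      rw [sub_nonneg]
      apply one_div_le_one_div_of_le (by positivity)
      gcongr
      linarith
    calc _ ≤ (6 * (N + (q : ℝ) ^ 2) * B) * (2 / (q : ℝ) ^ 3) :=
          mul_le_mul (hA q) h4 h5 (by positivity)
      _ = 12 * B * (1 / q) * (1 + N / (q : ℝ) ^ 2) := by field_simp; ring
      _ ≤ 12 * B * (1 / q) * (1 + N / (X : ℝ) ^ 2) := by gcongr
      _ = _ := by ring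
  have h4 : ∑ q ∈ Ico X Y, (∑ r ∈ Ioc X q, S r) * (1 / (q : ℝ) ^ 2 - 1 / ((q : ℝ) + 1) ^ 2) ≤
      12 * (1 + N / (X : ℝ) ^ 2) * B * (1 + Real.log ((Y : ℝ) / X)) := by
    refine (Finset.sum_le_sum h3).trans ?_
    rw [← Finset.mul_sum]
    exact mul_le_mul_of_nonneg_left (sum_inv_Ico hX hXY) (by positivity)
  have hl : 0 ≤ Real.log ((Y : ℝ) / X) := Real.log_nonneg (by rwa [one_le_div hX0])
  have h5 : 6 * (1 + N / (X : ℝ) ^ 2) * B ≤
      6 * (1 + N / (X : ℝ) ^ 2) * B * (1 + Real.log ((Y : ℝ) / X)) :=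
    le_mul_of_one_le_right (by positivity) (by linarith)
  calc _ ≤ 6 * (1 + N / (X : ℝ) ^ 2) * B +
        12 * (1 + N / (X : ℝ) ^ 2) * B * (1 + Real.log ((Y : ℝ) / X)) := add_le_add h2 h4
    _ ≤ 6 * (1 + N / (X : ℝ) ^ 2) * B * (1 + Real.log ((Y : ℝ) / X)) +
        12 * (1 + N / (X : ℝ) ^ 2) * B * (1 + Real.log ((Y : ℝ) / X)) := by linarith
    _ = _ := by ring

/-- the mass of the family -/
lemma Ew_one {X Y : ℕ} (hX : 1 ≤ X) (hXY : X ≤ Y) :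
    Ew X Y (fun _ => 1) ≤ 36 * (1 + Real.log ((Y : ℝ) / X)) := by
  have h := Ew_ls hX hXY 1 (fun _ => 1)
  have h1 : ∀ i : DCh, ‖∑ n ∈ Icc 1 1, (1 : ℂ) * i.2 ((n : ℕ) : ZMod i.1)‖ ^ 2 = 1 := by
    intro i
    rw [Icc_self, Finset.sum_singleton, Nat.cast_one, map_one, mul_one, norm_one, one_pow]
  simp_rw [h1] at h
  refine h.trans ?_
  have hX1 : (1 : ℝ) ≤ X := by exact_mod_cast hX
  have hXY' : (X : ℝ) ≤ Y := by exact_mod_cast hXY
  have hl : 0 ≤ Real.log ((Y : ℝ) / X) := Real.log_nonneg (by rwa [one_le_div (by linarith)])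
  have h2 : ((1 : ℕ) : ℝ) / (X : ℝ) ^ 2 ≤ 1 := by
    rw [Nat.cast_one, div_le_one (by positivity)]
    nlinarith
  simp only [Icc_self, Finset.sum_singleton, norm_one, one_pow, mul_one]
  nlinarith

end Pool.Agent.E8helper22.MW
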