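import Pool.Agent.E8helper22.MW.AP3
import Pool.Agent.R399.TW.CS

/-!
# The mean square of the mollified L-functions minus one
-/

set_option autoImplicit false

namespace Pool.Agent.E8helper22.MW

open MeasureTheory Set Filter Topology Complex
open Pool.Agent.R399.TW (pt pt_re pt_im pt_cont Ph strip Ph_nn Ph_le_one)

/-- the parameters -/
structure Par (θ₁ θ₂ ε η : ℝ) : Prop where
  h1 : 0 < θ₁
  h2 : θ₁ < θ₂
  he : 0 < ε
  h3 : θ₂ + ε < 1
  hη : 0 ≤ η
  h4 : 3 * η ≤ ε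

/-- the mollified L-function of a member of the family -/
noncomputable def GI (v₁ v₂ : ℝ) (i : DCh) (s : ℂ) : ℂ := H385.LF i.1 i.2 s * Mo v₁ v₂ i.2 s

lemma LF_eq {q : ℕ} [h : NeZero q] (χ : DirichletCharacter ℂ q) :
    H385.LF q χ = DirichletCharacter.LFunction χ := by
  unfold H385.LF
  rw [dif_neg h.out]

lemma GI_eq (v₁ v₂ : ℝ) {q : ℕ} [NeZero q] (χ : DirichletCharacter ℂ q) (s : ℂ) :
    GI v₁ v₂ ⟨q, χ⟩ s = GF v₁ v₂ χ s := by
  unfold GI GF
  rw [LF_eq]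

/-- the decay -/
noncomputable def Ed (θ₁ L σ : ℝ) : ℝ := Real.exp (-(2 * θ₁ * (σ - 1 / 2) * L))

lemma Ed_pos (θ₁ L σ : ℝ) : 0 < Ed θ₁ L σ := Real.exp_pos _

lemma nat_rpow_exp {n : ℕ} (hn : 1 ≤ n) (x : ℝ) : (n : ℝ) ^ x = Real.exp (x * Real.log n) := by
  rw [Real.rpow_def_of_pos (by exact_mod_cast hn), mul_comm]

/-- part 2: the middle terms -/
lemma part2 {θ₁ θ₂ ε η : ℝ} (hp : Par θ₁ θ₂ ε η) {L σ : ℝ} (hL : 12 ≤ L)
    (hσ : 1 / 2 - 3 / L ≤ σ) {n : ℕ} (hn : 1 < n) (hn2 : Real.log n ≤ 2 * L) :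
    (n : ℝ) ^ (-(2 * σ)) * cc (θ₁ * L) (θ₂ * L) n ^ 2 ≤
      Real.exp 14 * Ed θ₁ L σ * ((n : ℝ) ^ (-(1 + 1 / L)) * cc (θ₁ * L) (θ₂ * L) n ^ 2) := by
  have hL0 : 0 < L := by linarith
  have hv : θ₁ * L < θ₂ * L := mul_lt_mul_of_pos_right hp.h2 hL0
  rcases le_or_gt (Real.log n) (θ₁ * L) with h | h
  · rw [cc_small hv hn h]
    simp
  · have hn1 : 1 ≤ n := hn.le
    rw [← mul_assoc]
    refine mul_le_mul_of_nonneg_right ?_ (sq_nonneg _)
    rw [nat_rpow_exp hn1, nat_rpow_exp hn1]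
    unfold Ed
    rw [← Real.exp_add, ← Real.exp_add]
    apply Real.exp_le_exp.2
    set l := Real.log n with hl
    have h1 : 1 / L * l ≤ 2 := by
      rw [one_div, inv_mul_le_iff₀ hL0]
      linarith
    have h2 : -12 ≤ (2 * σ - 1) * (l - θ₁ * L) := by
      rcases le_or_gt (1 / 2) σ with hs | hs
      · have : 0 ≤ (2 * σ - 1) * (l - θ₁ * L) := mul_nonneg (by linarith) (by linarith)
        linarith
      · have h3 : -(6 / L) ≤ 2 * σ - 1 := by
          have : 6 / L = 2 * (3 / L) := by ring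
          linarith
        have h4 : l - θ₁ * L ≤ 2 * L := by
          have := mul_pos hp.h1 hL0
          linarith
        have h5 : 0 ≤ l - θ₁ * L := by linarith
        have h6 : -(6 / L) * (2 * L) = -12 := by field_simp; ring
        nlinarith [mul_nonneg h5 (show 0 ≤ 2 * σ - 1 + 6 / L by linarith),
          mul_nonneg (show 0 ≤ 6 / L by positivity) (show 0 ≤ 2 * L - (l - θ₁ * L) by linarith)]
    nlinarith

/-- the coefficients of the middle part -/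
noncomputable def bn (v₁ v₂ Lc : ℝ) (s : ℂ) (n : ℕ) : ℂ :=
  if n ≤ 1 then 0 else ((cc v₁ v₂ n : ℝ) : ℂ) * (n : ℂ) ^ (-s) * ((Ph (Lc - Real.log n) : ℝ) : ℂ)

lemma part2_sum {θ₁ θ₂ ε η : ℝ} (hp : Par θ₁ θ₂ ε η) {X : ℕ} (hL : 12 ≤ Real.log X) (Lc : ℝ) {s : ℂ}
    (hσ : 1 / 2 - 3 / Real.log X ≤ s.re) :
    ∑ n ∈ Finset.Icc 1 (X ^ 2), ‖bn (θ₁ * Real.log X) (θ₂ * Real.log X) Lc s n‖ ^ 2 ≤
      256 * Real.exp 14 * Cv / (θ₂ - θ₁) ^ 2 * Ed θ₁ (Real.log X) s.re := by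
  set L := Real.log X with hLd
  have hL0 : 0 < L := by linarith
  have hv : θ₁ * L < θ₂ * L := mul_lt_mul_of_pos_right hp.h2 hL0
  have hd : 0 < θ₂ - θ₁ := by linarith [hp.h2]
  have hX0 : 0 < X := by
    rcases Nat.eq_zero_or_pos X with rfl | h
    · rw [hLd] at hL0; simp at hL0
    · exact h
  obtain ⟨hs, hb⟩ := cc_sq (v₁ := θ₁ * L) (v₂ := θ₂ * L) (κ := 1 / L)
    (mul_nonneg hp.h1.le hL0.le) hv (by positivity)
  have h1 : ∀ n ∈ Finset.Icc 1 (X ^ 2), ‖bn (θ₁ * L) (θ₂ * L) Lc s n‖ ^ 2 ≤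
      Real.exp 14 * Ed θ₁ L s.re * ((n : ℝ) ^ (-(1 + 1 / L)) * cc (θ₁ * L) (θ₂ * L) n ^ 2) := by
    intro n hn
    rw [Finset.mem_Icc] at hn
    have hE := Ed_pos θ₁ L s.re
    unfold bn
    split_ifs with h
    · rw [norm_zero, zero_pow two_ne_zero]
      positivity
    · have hn1 : 1 < n := by omega
      have hn2 : Real.log n ≤ 2 * L := by
        have : Real.log n ≤ Real.log ((X ^ 2 : ℕ) : ℝ) :=
          Real.log_le_log (by exact_mod_cast hn.1) (by exact_mod_cast hn.2)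
        rw [Nat.cast_pow, Real.log_pow] at this
        exact_mod_cast this
      refine le_trans ?_ (part2 hp hL hσ hn1 hn2)
      rw [norm_mul, norm_mul, Complex.norm_real, Complex.norm_real,
        Complex.norm_natCast_cpow_of_pos (by omega), Complex.neg_re, mul_pow, mul_pow,
        Real.norm_eq_abs, sq_abs, Real.norm_eq_abs, abs_of_nonneg (Ph_nn _)]
      have h2 : ((n : ℝ) ^ (-s.re)) ^ 2 = (n : ℝ) ^ (-(2 * s.re)) := by
        rw [← Real.rpow_natCast, ← Real.rpow_mul (by positivity)]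
        congr 1
        push_cast
        ring
      rw [h2]
      have h3 : Ph (Lc - Real.log n) ^ 2 ≤ 1 := by
        have := Ph_nn (Lc - Real.log n)
        have := Ph_le_one (Lc - Real.log n)
        nlinarith
      calc cc (θ₁ * L) (θ₂ * L) n ^ 2 * (n : ℝ) ^ (-(2 * s.re)) * Ph (Lc - Real.log n) ^ 2
          ≤ cc (θ₁ * L) (θ₂ * L) n ^ 2 * (n : ℝ) ^ (-(2 * s.re)) * 1 := by gcongr
        _ = _ := by ring
  refine (Finset.sum_le_sum h1).trans ?_
  rw [← Finset.mul_sum]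
  have hE := Ed_pos θ₁ L s.re
  have h2 : ∑ n ∈ Finset.Icc 1 (X ^ 2), (n : ℝ) ^ (-(1 + 1 / L)) * cc (θ₁ * L) (θ₂ * L) n ^ 2 ≤
      256 * Cv / (θ₂ - θ₁) ^ 2 := by
    refine (hs.sum_le_tsum _ fun n _ => by positivity).trans (hb.trans ?_)
    have e1 : 1 / L * (θ₂ * L) = θ₂ := by field_simp
    have e2 : θ₂ * L - θ₁ * L = (θ₂ - θ₁) * L := by ring
    rw [e1, e2, mul_pow, one_div_one_div]
    have hθ : θ₂ ≤ 1 := by linarith [hp.h3, hp.he]
    have hθ0 : 0 < θ₂ := by linarith [hp.h1, hp.h2]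
    have hC := Cv_pos
    rw [div_le_div_iff₀ (by positivity) (by positivity)]
    have h3 : (1 + θ₂) ^ 2 * (1 + θ₂ * L) * (1 + L) ≤ 64 * L ^ 2 := by
      have a1 : (1 + θ₂) ^ 2 ≤ 4 := by nlinarith
      have a2 : 1 + θ₂ * L ≤ 2 * L := by nlinarith
      have a3 : 1 + L ≤ 2 * L := by linarith
      calc (1 + θ₂) ^ 2 * (1 + θ₂ * L) * (1 + L) ≤ 4 * (2 * L) * (2 * L) := by gcongr
        _ ≤ _ := by nlinarith
    calc 4 * Cv * ((1 + θ₂) ^ 2 * (1 + θ₂ * L) * (1 + L)) * (θ₂ - θ₁) ^ 2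
        ≤ 4 * Cv * (64 * L ^ 2) * (θ₂ - θ₁) ^ 2 := by gcongr
      _ = _ := by ring
  calc _ ≤ Real.exp 14 * Ed θ₁ L s.re * (256 * Cv / (θ₂ - θ₁) ^ 2) := by gcongr
    _ = _ := by ring

/-- part 3: the tail -/
lemma part3 {v₁ v₂ : ℝ} (hv : v₁ < v₂) {X : ℕ} (hX : 1 ≤ X) {A Lc : ℝ} (hA : 4 ≤ A) {s : ℂ}
    (hσ : -1 ≤ s.re) {q : ℕ} (χ : DirichletCharacter ℂ q) :
    ‖∑' n : ℕ, (if n ≤ X ^ 2 then 0 else sT v₁ v₂ Lc χ s n)‖ ≤
      2 * Real.exp (A ^ 2 + A * Lc + (8 - 2 * A) * Real.log X) := by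
  have hle : ∀ n : ℕ, ‖(if n ≤ X ^ 2 then 0 else sT v₁ v₂ Lc χ s n)‖ ≤
      Real.exp (A ^ 2 + A * Lc + (8 - 2 * A) * Real.log X) * (n : ℝ) ^ (-(2 : ℝ)) := by
    intro n
    split_ifs with h
    · rw [norm_zero]; positivity
    · rw [not_le] at h
      have hX2 : 1 ≤ X ^ 2 := Nat.one_le_pow _ _ hX
      have hn : 1 ≤ n := by omega
      have hn0 : (0 : ℝ) < n := by exact_mod_cast hn
      have hl0 : 0 ≤ Real.log n := Real.log_nonneg (by exact_mod_cast hn)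
      have hl : 2 * Real.log X ≤ Real.log n := by
        have h1 : Real.log ((X ^ 2 : ℕ) : ℝ) ≤ Real.log n :=
          Real.log_le_log (by exact_mod_cast hX2) (by exact_mod_cast h.le)
        rw [Nat.cast_pow, Real.log_pow] at h1
        exact_mod_cast h1
      unfold sT
      rw [norm_mul, norm_mul, Complex.norm_natCast_cpow_of_pos hn, Complex.norm_real,
        Real.norm_eq_abs, abs_of_nonneg (Ph_nn _), Complex.neg_re]
      have h1 : ‖an v₁ v₂ χ n‖ ≤ Real.exp (Real.log n) := by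
        rw [Real.exp_log hn0]
        exact an_le hv χ n
      have h2 : (n : ℝ) ^ (-s.re) ≤ Real.exp (Real.log n) := by
        rw [nat_rpow_exp hn]
        apply Real.exp_le_exp.2
        nlinarith
      have h3 := Ph_decay' (A := A) (by linarith) (Lc - Real.log n)
      calc _ ≤ Real.exp (Real.log n) * Real.exp (Real.log n) *
            Real.exp (A ^ 2 + A * (Lc - Real.log n)) := by
            gcongr
            exact Ph_nn _
        _ = Real.exp (A ^ 2 + A * Lc + (4 - A) * Real.log n + (-2) * Real.log n) := by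
            rw [← Real.exp_add, ← Real.exp_add]
            congr 1
            ring
        _ ≤ Real.exp (A ^ 2 + A * Lc + (8 - 2 * A) * Real.log X + (-2) * Real.log n) := by
            apply Real.exp_le_exp.2
            nlinarith
        _ = _ := by
            rw [Real.exp_add, nat_rpow_exp hn]
  have hs2 : Summable fun n : ℕ => (n : ℝ) ^ (-(2 : ℝ)) := Real.summable_nat_rpow.2 (by norm_num)
  have h2 : ∑' n : ℕ, (n : ℝ) ^ (-(2 : ℝ)) ≤ 2 := by
    have := ze_le (κ := 1) one_pos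
    unfold ze at this
    norm_num at this
    norm_num
    exact this
  calc _ ≤ ∑' n : ℕ, ‖(if n ≤ X ^ 2 then 0 else sT v₁ v₂ Lc χ s n)‖ :=
        norm_tsum_le_tsum_norm (Summable.of_nonneg_of_le (fun _ => norm_nonneg _) hle
          (hs2.mul_left _))
    _ ≤ ∑' n : ℕ, Real.exp (A ^ 2 + A * Lc + (8 - 2 * A) * Real.log X) * (n : ℝ) ^ (-(2 : ℝ)) :=
        Summable.tsum_le_tsum hle (Summable.of_nonneg_of_le (fun _ => norm_nonneg _) hle
          (hs2.mul_left _)) (hs2.mul_left _)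
    _ = Real.exp (A ^ 2 + A * Lc + (8 - 2 * A) * Real.log X) * ∑' n : ℕ, (n : ℝ) ^ (-(2 : ℝ)) :=
        tsum_mul_left
    _ ≤ Real.exp (A ^ 2 + A * Lc + (8 - 2 * A) * Real.log X) * 2 := by gcongr
    _ = _ := by ring

/-- the value `ζ(5/4)` -/
noncomputable def Z5 : ℝ := ∑' n : ℕ, 1 / (n : ℝ) ^ (1 + 1 / 4 : ℝ)

lemma Z5_nn : 0 ≤ Z5 := tsum_nonneg fun n => by positivity

/-- the Gaussian integral -/
noncomputable def I0 : ℝ := ∫ u : ℝ, (1 + |u|) * Real.exp (-u ^ 2)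

lemma I0_int : Integrable fun u : ℝ => (1 + |u|) * Real.exp (-u ^ 2) := by
  have h1 : Integrable fun u : ℝ => Real.exp (-(1 / 2) * u ^ 2) := integrable_exp_neg_mul_sq (by norm_num)
  refine (h1.const_mul 3).mono' (by fun_prop) (Eventually.of_forall fun u => ?_)
  rw [Real.norm_eq_abs, abs_of_nonneg (by positivity)]
  have h2 : 1 + |u| ≤ 3 * Real.exp (1 / 2 * u ^ 2) := by
    have h3 := Real.add_one_le_exp (1 / 2 * u ^ 2)
    have h4 : |u| ≤ 1 / 2 * u ^ 2 + 1 / 2 := by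
      have := sq_nonneg (|u| - 1)
      have h5 : u ^ 2 = |u| ^ 2 := (sq_abs u).symm
      nlinarith
    have h6 : 1 ≤ Real.exp (1 / 2 * u ^ 2) := Real.one_le_exp (by positivity)
    linarith
  calc (1 + |u|) * Real.exp (-u ^ 2) ≤ (3 * Real.exp (1 / 2 * u ^ 2)) * Real.exp (-u ^ 2) := by gcongr
    _ = 3 * Real.exp (-(1 / 2) * u ^ 2) := by
        rw [mul_assoc, ← Real.exp_add]
        congr 2
        ring

lemma I0_nn : 0 ≤ I0 := integral_nonneg fun u => by positivity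

lemma I0_shift (τ : ℝ) : Integrable (fun t : ℝ => (1 + |t|) * Real.exp (-(t - τ) ^ 2)) ∧
    ∫ t : ℝ, (1 + |t|) * Real.exp (-(t - τ) ^ 2) ≤ (1 + |τ|) * I0 := by
  have h1 : Integrable fun t : ℝ => (1 + |τ|) * ((1 + |t - τ|) * Real.exp (-(t - τ) ^ 2)) :=
    (I0_int.comp_sub_right τ).const_mul _
  have h2 : ∀ t : ℝ, (1 + |t|) * Real.exp (-(t - τ) ^ 2) ≤
      (1 + |τ|) * ((1 + |t - τ|) * Real.exp (-(t - τ) ^ 2)) := by
    intro t
    rw [← mul_assoc]
    refine mul_le_mul_of_nonneg_right ?_ (Real.exp_pos _).le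
    have h3 : |t| ≤ |t - τ| + |τ| := by
      have := abs_add_le (t - τ) τ
      simpa using this
    have h4 := mul_nonneg (abs_nonneg τ) (abs_nonneg (t - τ))
    nlinarith
  have h3 : Integrable (fun t : ℝ => (1 + |t|) * Real.exp (-(t - τ) ^ 2)) := by
    refine h1.mono' (by fun_prop) (Eventually.of_forall fun t => ?_)
    rw [Real.norm_eq_abs, abs_of_nonneg (by positivity)]
    exact h2 t
  refine ⟨h3, (integral_mono h3 h1 h2).trans ?_⟩
  rw [integral_const_mul, integral_sub_right_eq_self (fun u : ℝ => (1 + |u|) * Real.exp (-u ^ 2)) τ]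
  rfl

/-- the bound on the left line -/
lemma L_left {q : ℕ} [NeZero q] {χ : DirichletCharacter ℂ q} (hq : 1 < q) (hχ : χ.IsPrimitive)
    (t : ℝ) : ‖DirichletCharacter.LFunction χ (pt (-1 / 4) t)‖ ≤
      32 * (q : ℝ) ^ (3 / 4 : ℝ) * (1 + |t|) * Z5 := by
  have h1 := H855R2.SF.ne_one_of_prim hq hχ
  have h2 := H855R2.SF.refl_dir hq hχ (x := 3 / 4) (t := t) (by norm_num) le_rfl
  have e1 : (⟨1 / 2 - 3 / 4, t⟩ : ℂ) = pt (-1 / 4) t := by
    apply Complex.ext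
    · simp; norm_num
    · simp
  rw [e1] at h2
  have h3 := H855R2.SF.right_dir (χ := χ) (δ := 1 / 4) (by norm_num) (s := ⟨1 / 2 + 3 / 4, t⟩)
    (by norm_num)
  have h4 : ((q : ℝ) * (1 + |t|)) ^ (3 / 4 : ℝ) ≤ (q : ℝ) ^ (3 / 4 : ℝ) * (1 + |t|) := by
    have h5 : 1 ≤ 1 + |t| := by have := abs_nonneg t; linarith
    rw [Real.mul_rpow (by positivity) (by positivity)]
    refine mul_le_mul_of_nonneg_left ?_ (by positivity)
    calc (1 + |t|) ^ (3 / 4 : ℝ) ≤ (1 + |t|) ^ (1 : ℝ) :=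
          Real.rpow_le_rpow_of_exponent_le h5 (by norm_num)
      _ = _ := Real.rpow_one _
  calc _ ≤ 32 * ((q : ℝ) * (1 + |t|)) ^ (3 / 4 : ℝ) *
        ‖DirichletCharacter.LFunction χ ⟨1 / 2 + 3 / 4, t⟩‖ := h2
    _ ≤ 32 * ((q : ℝ) ^ (3 / 4 : ℝ) * (1 + |t|)) * Z5 := by
        have := Z5_nn
        gcongr
        exact h3
    _ = _ := by ring

open Classical in
/-- the mean square of the mollifier on the left line -/
lemma Mo_left {v₁ v₂ : ℝ} (hv : v₁ < v₂) {X Y : ℕ} (hX : 1 ≤ X) (hXY : X ≤ Y)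
    (hD : Real.exp v₂ ≤ (X : ℝ) ^ 2) (t : ℝ) :
    Ew X Y (fun i => ‖Mo v₁ v₂ i.2 (pt (-1 / 4) t)‖ ^ 2) ≤
      36 * (1 + Real.log ((Y : ℝ) / X)) * Real.exp (3 / 2 * v₂) := by
  have hX1 : (1 : ℝ) ≤ X := by exact_mod_cast hX
  have hXY' : (X : ℝ) ≤ Y := by exact_mod_cast hXY
  have hl : 0 ≤ Real.log ((Y : ℝ) / X) := Real.log_nonneg (by rwa [one_le_div (by linarith)])
  set D := ⌊Real.exp v₂⌋₊ with hDd
  have hDe : (D : ℝ) ≤ Real.exp v₂ := Nat.floor_le (Real.exp_pos v₂).le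
  have h1 : ∀ i : DCh, Mo v₁ v₂ i.2 (pt (-1 / 4) t) = ∑ n ∈ Finset.Icc 1 D,
      (((lm v₁ v₂ n : ℝ) : ℂ) * (n : ℂ) ^ (-(pt (-1 / 4) t))) * i.2 (n : ZMod i.1) := by
    intro i
    unfold Mo
    have : Finset.Ioc 0 D = Finset.Icc 1 D := rfl
    rw [this]
    exact Finset.sum_congr rfl fun d _ => by ring
  simp_rw [h1]
  refine (Ew_ls hX hXY D _).trans ?_
  have h2 : ∑ n ∈ Finset.Icc 1 D, ‖((lm v₁ v₂ n : ℝ) : ℂ) * (n : ℂ) ^ (-(pt (-1 / 4) t))‖ ^ 2 ≤
      Real.exp (3 / 2 * v₂) := by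
    calc _ ≤ ∑ n ∈ Finset.Icc 1 D, Real.exp (1 / 2 * v₂) := by
          refine Finset.sum_le_sum fun n hn => ?_
          rw [Finset.mem_Icc] at hn
          have hn0 : (0 : ℝ) < n := by exact_mod_cast hn.1
          have hnD : (n : ℝ) ≤ D := by exact_mod_cast hn.2
          have hnl : Real.log n ≤ v₂ := by
            rw [← Real.log_exp v₂]
            exact Real.log_le_log hn0 (hnD.trans hDe)
          rw [norm_mul, Complex.norm_natCast_cpow_of_pos hn.1, Complex.norm_real, Real.norm_eq_abs,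
            Complex.neg_re, pt_re, nat_rpow_exp hn.1]
          have h3 := abs_lm_le hv n
          calc (|lm v₁ v₂ n| * Real.exp (-(-1 / 4) * Real.log n)) ^ 2
              ≤ (1 * Real.exp (-(-1 / 4) * Real.log n)) ^ 2 := by gcongr
            _ = Real.exp (1 / 2 * Real.log n) := by
                rw [one_mul, sq, ← Real.exp_add]
                congr 1
                ring
            _ ≤ _ := by
                apply Real.exp_le_exp.2
                linarith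
      _ = D * Real.exp (1 / 2 * v₂) := by rw [Finset.sum_const, Nat.card_Icc, nsmul_eq_mul]; simp
      _ ≤ Real.exp v₂ * Real.exp (1 / 2 * v₂) := by gcongr
      _ = _ := by
          rw [← Real.exp_add]
          congr 1
          ring
  have h3 : (D : ℝ) / (X : ℝ) ^ 2 ≤ 1 := by
    rw [div_le_one (by positivity)]
    exact hDe.trans hD
  have h4 : (0 : ℝ) ≤ (D : ℝ) / (X : ℝ) ^ 2 := by positivity
  calc _ ≤ 18 * (1 + Real.log ((Y : ℝ) / X)) * (1 + 1) * Real.exp (3 / 2 * v₂) := by gcongr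
    _ = _ := by ring

end Pool.Agent.E8helper22.MW
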