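import Mathlib

/-!
# Möbius sums with a coprimality condition
-/

set_option autoImplicit false

namespace Pool.Agent.E8helper22.MW

open Finset

/-- the Möbius function as a real number -/
noncomputable def mu (n : ℕ) : ℝ := ((ArithmeticFunction.moebius n : ℤ) : ℝ)

lemma mu_one : mu 1 = 1 := by simp [mu]

lemma abs_mu_le (n : ℕ) : |mu n| ≤ 1 := by
  unfold mu
  have := ArithmeticFunction.abs_moebius_le_one (n := n)
  exact_mod_cast this

/-- `n ↦ μ(n) w(n)` on the integers prime to `f` -/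
noncomputable def fA (f : ℕ) (w : ℕ → ℝ) : ArithmeticFunction ℝ :=
  ⟨fun n => if n = 0 then 0 else if n.Coprime f then mu n * w n else 0, by simp⟩

/-- `n ↦ w(n)` on the integers prime to `f` -/
noncomputable def gA (f : ℕ) (w : ℕ → ℝ) : ArithmeticFunction ℝ :=
  ⟨fun n => if n = 0 then 0 else if n.Coprime f then w n else 0, by simp⟩

lemma fA_apply (f : ℕ) (w : ℕ → ℝ) (n : ℕ) :
    fA f w n = if n = 0 then 0 else if n.Coprime f then mu n * w n else 0 := rfl

lemma gA_apply (f : ℕ) (w : ℕ → ℝ) (n : ℕ) :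
    gA f w n = if n = 0 then 0 else if n.Coprime f then w n else 0 := rfl

lemma sum_mu_divisors (n : ℕ) : ∑ d ∈ n.divisors, mu d = if n = 1 then 1 else 0 := by
  have h := ArithmeticFunction.coe_mul_zeta_apply (f := (ArithmeticFunction.moebius : ArithmeticFunction ℤ)) (x := n)
  rw [ArithmeticFunction.moebius_mul_coe_zeta, ArithmeticFunction.one_apply] at h
  unfold mu
  rw [← Int.cast_sum, ← h]
  split_ifs <;> simp

lemma conv_eq (f : ℕ) (w : ℕ → ℝ) (hw1 : w 1 = 1)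
    (hw : ∀ m n, m ≠ 0 → n ≠ 0 → w (m * n) = w m * w n) (n : ℕ) :
    (fA f w * gA f w) n = if n = 1 then 1 else 0 := by
  rcases eq_or_ne n 0 with rfl | hn
  · simp
  rw [ArithmeticFunction.mul_apply]
  by_cases hc : n.Coprime f
  · have h1 : ∀ p ∈ n.divisorsAntidiagonal, fA f w p.1 * gA f w p.2 = mu p.1 * w n := by
      intro p hp
      rw [Nat.mem_divisorsAntidiagonal] at hp
      obtain ⟨hp1, hp2⟩ := hp
      have h1 : p.1 ≠ 0 := by rintro h; rw [h, zero_mul] at hp1; exact hn hp1.symm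
      have h2 : p.2 ≠ 0 := by rintro h; rw [h, mul_zero] at hp1; exact hn hp1.symm
      rw [fA_apply, gA_apply, if_neg h1, if_neg h2,
        if_pos (Nat.Coprime.coprime_dvd_left ⟨p.2, hp1.symm⟩ hc),
        if_pos (Nat.Coprime.coprime_dvd_left ⟨p.1, by rw [← hp1, mul_comm]⟩ hc), ← hp1, hw _ _ h1 h2]
      ring
    rw [Finset.sum_congr rfl h1, ← Finset.sum_mul,
      Nat.sum_divisorsAntidiagonal (fun d _ => mu d), sum_mu_divisors]
    split_ifs with h
    · rw [h, hw1]; ring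
    · ring
  · have h1 : ∀ p ∈ n.divisorsAntidiagonal, fA f w p.1 * gA f w p.2 = 0 := by
      intro p hp
      rw [Nat.mem_divisorsAntidiagonal] at hp
      obtain ⟨hp1, hp2⟩ := hp
      have h1 : p.1 ≠ 0 := by rintro h; rw [h, zero_mul] at hp1; exact hn hp1.symm
      have h2 : p.2 ≠ 0 := by rintro h; rw [h, mul_zero] at hp1; exact hn hp1.symm
      rw [fA_apply, gA_apply, if_neg h1, if_neg h2]
      by_cases ha : p.1.Coprime f
      · by_cases hb : p.2.Coprime f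
        · exact absurd (hp1 ▸ Nat.Coprime.mul_left ha hb) hc
        · rw [if_neg hb, mul_zero]
      · rw [if_neg ha, zero_mul]
    rw [Finset.sum_eq_zero h1]
    split_ifs with h
    · rw [h] at hc
      exact absurd (Nat.coprime_one_left f) hc
    · rfl

lemma inv_id (f : ℕ) (w : ℕ → ℝ) (hw1 : w 1 = 1)
    (hw : ∀ m n, m ≠ 0 → n ≠ 0 → w (m * n) = w m * w n) {N : ℕ} (hN : 1 ≤ N) :
    ∑ m ∈ Ioc 0 N, fA f w m * ∑ n ∈ Ioc 0 (N / m), gA f w n = 1 := by
  rw [← ArithmeticFunction.sum_Ioc_mul_eq_sum_sum]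
  rw [Finset.sum_congr rfl fun n _ => conv_eq f w hw1 hw n, Finset.sum_ite_eq' ]
  simp
  omega

/-- detecting coprimality -/
lemma cop_detect {f : ℕ} (hf : f ≠ 0) {n : ℕ} (hn : n ≠ 0) :
    (if n.Coprime f then (1 : ℝ) else 0) = ∑ d ∈ f.divisors, if d ∣ n then mu d else 0 := by
  rw [← Finset.sum_filter]
  have h : f.divisors.filter (fun d => d ∣ n) = (Nat.gcd n f).divisors := by
    ext d
    simp only [Finset.mem_filter, Nat.mem_divisors, Nat.dvd_gcd_iff]
    constructor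
    · rintro ⟨⟨h1, h2⟩, h3⟩
      exact ⟨⟨h3, h1⟩, Nat.gcd_ne_zero_left hn⟩
    · rintro ⟨⟨h1, h2⟩, h3⟩
      exact ⟨⟨h2, hf⟩, h1⟩
  rw [h, sum_mu_divisors]

/-- sums over the integers prime to `f` -/
lemma cop_sum {f : ℕ} (hf : f ≠ 0) (w : ℕ → ℝ)
    (hw : ∀ m n, m ≠ 0 → n ≠ 0 → w (m * n) = w m * w n) (N : ℕ) :
    ∑ n ∈ Ioc 0 N, gA f w n = ∑ d ∈ f.divisors, mu d * w d * ∑ k ∈ Ioc 0 (N / d), w k := by
  have h1 : ∀ n ∈ Ioc 0 N, gA f w n = ∑ d ∈ f.divisors, if d ∣ n then mu d * w n else 0 := by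
    intro n hn
    rw [mem_Ioc] at hn
    have hn0 : n ≠ 0 := by omega
    have h2 : gA f w n = (if n.Coprime f then (1 : ℝ) else 0) * w n := by
      rw [gA_apply, if_neg hn0]
      split_ifs <;> simp
    rw [h2, cop_detect hf hn0, Finset.sum_mul]
    refine Finset.sum_congr rfl fun d _ => ?_
    split_ifs <;> simp
  rw [Finset.sum_congr rfl h1, Finset.sum_comm]
  refine Finset.sum_congr rfl fun d hd => ?_
  have hd0 : 0 < d := Nat.pos_of_mem_divisors hd
  rw [← Finset.sum_filter, Finset.mul_sum]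
  refine Finset.sum_nbij' (fun n => n / d) (fun k => d * k) ?_ ?_ ?_ ?_ ?_
  · intro n hn
    rw [Finset.mem_filter, mem_Ioc] at hn
    rw [mem_Ioc]
    exact ⟨Nat.div_pos (Nat.le_of_dvd hn.1.1 hn.2) hd0, Nat.div_le_div_right hn.1.2⟩
  · intro k hk
    rw [mem_Ioc] at hk
    rw [Finset.mem_filter, mem_Ioc]
    refine ⟨⟨Nat.mul_pos hd0 hk.1, ?_⟩, dvd_mul_right _ _⟩
    rw [mul_comm]
    exact (Nat.le_div_iff_mul_le hd0).1 hk.2
  · intro n hn
    rw [Finset.mem_filter] at hn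
    exact Nat.mul_div_cancel' hn.2
  · intro k _
    exact Nat.mul_div_cancel_left k hd0
  · intro n hn
    rw [Finset.mem_filter, mem_Ioc] at hn
    obtain ⟨k, hk⟩ := hn.2
    have hk0 : k ≠ 0 := by rintro rfl; omega
    rw [hk, Nat.mul_div_cancel_left k hd0, hw _ _ hd0.ne' hk0]
    ring

/-- `n^{-1/2}` -/
noncomputable def xs (n : ℕ) : ℝ := (Real.sqrt n)⁻¹

lemma xs_nn (n : ℕ) : 0 ≤ xs n := by unfold xs; positivity

lemma xs_mul (m n : ℕ) : xs (m * n) = xs m * xs n := by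
  unfold xs
  push_cast
  rw [Real.sqrt_mul (by positivity), mul_inv]

lemma xs_one : xs 1 = 1 := by simp [xs]

lemma xs_le_one {n : ℕ} (hn : 1 ≤ n) : xs n ≤ 1 := by
  unfold xs
  rw [inv_le_one₀ (by positivity)]
  exact Real.one_le_sqrt.2 (by exact_mod_cast hn)

lemma xs_sq (n : ℕ) : xs n ^ 2 = (n : ℝ)⁻¹ := by
  unfold xs
  rw [inv_pow, Real.sq_sqrt (by positivity)]

/-- `∑_{d | f} d^{-1/2}` -/
noncomputable def hh (f : ℕ) : ℝ := ∑ d ∈ f.divisors, xs d

/-- `φ(f)/f` -/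
noncomputable def af (f : ℕ) : ℝ := ∑ d ∈ f.divisors, mu d * (d : ℝ)⁻¹

/-- the constant of the harmonic sum -/
noncomputable def Kf (f : ℕ) : ℝ :=
  ∑ d ∈ f.divisors, mu d * (d : ℝ)⁻¹ * (Real.eulerMascheroniConstant - Real.log d)

lemma hh_nn (f : ℕ) : 0 ≤ hh f := Finset.sum_nonneg fun _ _ => xs_nn _

lemma one_le_hh {f : ℕ} (hf : f ≠ 0) : 1 ≤ hh f := by
  unfold hh
  have h1 : (1 : ℕ) ∈ f.divisors := Nat.one_mem_divisors.2 hf
  have := Finset.single_le_sum (f := xs) (fun d _ => xs_nn d) h1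
  rwa [xs_one] at this

lemma inv_eq (d : ℕ) : (d : ℝ)⁻¹ = xs d * xs d := by rw [← xs_sq, sq]

lemma log_le_sqrt {d : ℕ} (hd : 1 ≤ d) : Real.log d ≤ 2 * Real.sqrt d - 2 := by
  have h0 : (0 : ℝ) < Real.sqrt d := Real.sqrt_pos.2 (by exact_mod_cast hd)
  have h1 := Real.log_le_sub_one_of_pos h0
  have h2 : Real.log (Real.sqrt d) = Real.log d / 2 := Real.log_sqrt (by positivity)
  linarith

lemma abs_Kf (f : ℕ) : |Kf f| ≤ 2 * hh f := by
  unfold Kf hh
  rw [Finset.mul_sum]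
  refine (Finset.abs_sum_le_sum_abs _ _).trans (Finset.sum_le_sum fun d hd => ?_)
  have hd1 : 1 ≤ d := Nat.pos_of_mem_divisors hd
  have hs : 0 < Real.sqrt d := Real.sqrt_pos.2 (by exact_mod_cast hd1)
  have h1 : |Real.eulerMascheroniConstant - Real.log d| ≤ 2 * Real.sqrt d := by
    have h2 := Real.one_half_lt_eulerMascheroniConstant
    have h3 := Real.eulerMascheroniConstant_lt_two_thirds
    have h4 := log_le_sqrt hd1
    have h5 : 0 ≤ Real.log d := Real.log_nonneg (by exact_mod_cast hd1)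
    rw [abs_le]
    constructor <;> linarith
  rw [abs_mul, abs_mul]
  have h2 : |mu d| ≤ 1 := abs_mu_le d
  have h3 : |(d : ℝ)⁻¹| = xs d * xs d := by rw [abs_of_nonneg (by positivity), inv_eq]
  rw [h3]
  have h4 : xs d * Real.sqrt d = 1 := by unfold xs; exact inv_mul_cancel₀ hs.ne'
  calc |mu d| * (xs d * xs d) * |Real.eulerMascheroniConstant - Real.log d|
      ≤ 1 * (xs d * xs d) * (2 * Real.sqrt d) :=
        mul_le_mul (mul_le_mul_of_nonneg_right h2 (mul_nonneg (xs_nn d) (xs_nn d))) h1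
          (abs_nonneg _) (by have := mul_nonneg (xs_nn d) (xs_nn d); linarith)
    _ = 2 * xs d * (xs d * Real.sqrt d) := by ring
    _ = 2 * xs d := by rw [h4, mul_one]

/-- the harmonic sum with error -/
lemma harm_err {t : ℝ} (ht : 0 < t) :
    |∑ k ∈ Ioc 0 ⌊t⌋₊, (k : ℝ)⁻¹ - Real.log t - Real.eulerMascheroniConstant| ≤
      2 * (Real.sqrt t)⁻¹ := by
  have hs : 0 < Real.sqrt t := Real.sqrt_pos.2 ht
  have g2 := Real.one_half_lt_eulerMascheroniConstant
  have g3 := Real.eulerMascheroniConstant_lt_two_thirds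
  rcases lt_or_ge t 1 with h | h
  · have h0 : ⌊t⌋₊ = 0 := Nat.floor_eq_zero.2 h
    rw [h0]
    simp only [Ioc_self, Finset.sum_empty, zero_sub]
    have h1 := Real.log_le_sub_one_of_pos (inv_pos.2 hs)
    rw [Real.log_inv, Real.log_sqrt ht.le] at h1
    have h2 : Real.log t ≤ 0 := Real.log_nonpos ht.le h.le
    have h3 : 1 ≤ (Real.sqrt t)⁻¹ := (one_le_inv₀ hs).2 (Real.sqrt_le_one.2 h.le)
    rw [abs_le]
    constructor <;> linarith
  · set n := ⌊t⌋₊ with hn
    have hn1 : 1 ≤ n := Nat.le_floor (by simpa using h)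
    have hnr : (1 : ℝ) ≤ n := by exact_mod_cast hn1
    have hnt : (n : ℝ) ≤ t := Nat.floor_le ht.le
    have htn : t < n + 1 := Nat.lt_floor_add_one t
    have hH : ∑ k ∈ Ioc 0 n, (k : ℝ)⁻¹ = ((harmonic n : ℚ) : ℝ) := by
      rw [harmonic_eq_sum_Icc]
      push_cast
      rfl
    have e1 := Real.eulerMascheroniSeq_lt_eulerMascheroniConstant n
    have e2 := Real.eulerMascheroniConstant_lt_eulerMascheroniSeq' n
    unfold Real.eulerMascheroniSeq at e1
    unfold Real.eulerMascheroniSeq' at e2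
    rw [if_neg (by omega)] at e2
    rw [hH]
    have l1 : Real.log n ≤ Real.log t := Real.log_le_log (by linarith) hnt
    have l2 : Real.log t ≤ Real.log (n + 1) := Real.log_le_log ht htn.le
    have l3 : Real.log (n + 1) - Real.log n ≤ 1 / n := by
      rw [← Real.log_div (by linarith) (by linarith)]
      have := Real.log_le_sub_one_of_pos (x := ((n : ℝ) + 1) / n) (by positivity)
      have h4 : ((n : ℝ) + 1) / n - 1 = 1 / n := by field_simp; ring
      linarith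
    have l4 : 1 / (n : ℝ) ≤ 2 * (Real.sqrt t)⁻¹ := by
      have h5 : t ≤ 2 * n := by linarith
      have h6 : 1 ≤ Real.sqrt t := Real.one_le_sqrt.2 h
      have h7 : Real.sqrt t * Real.sqrt t = t := Real.mul_self_sqrt ht.le
      rw [← div_eq_mul_inv, div_le_div_iff₀ (by linarith) hs]
      nlinarith
    rw [abs_le]
    constructor <;> linarith

lemma floor_err {t : ℝ} (ht : 0 < t) : |(⌊t⌋₊ : ℝ) - t| ≤ Real.sqrt t := by
  have hs : 0 < Real.sqrt t := Real.sqrt_pos.2 ht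
  have h7 : Real.sqrt t * Real.sqrt t = t := Real.mul_self_sqrt ht.le
  rcases lt_or_ge t 1 with h | h
  · have h0 : ⌊t⌋₊ = 0 := Nat.floor_eq_zero.2 h
    rw [h0]
    have : Real.sqrt t ≤ 1 := Real.sqrt_le_one.2 h.le
    simp only [Nat.cast_zero, zero_sub, abs_neg, abs_of_pos ht]
    nlinarith
  · have h1 : (⌊t⌋₊ : ℝ) ≤ t := Nat.floor_le ht.le
    have h2 := Nat.lt_floor_add_one t
    have h3 : 1 ≤ Real.sqrt t := Real.one_le_sqrt.2 h
    rw [abs_le]
    constructor <;> linarith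

lemma xs_eq_sqrt (d : ℕ) {y : ℝ} (hy : 0 < y) (hd : 1 ≤ d) :
    (Real.sqrt (y / d))⁻¹ = Real.sqrt d * (Real.sqrt y)⁻¹ := by
  rw [Real.sqrt_div hy.le, inv_div, div_eq_mul_inv]

/-- the sum of `1/n` over the integers prime to `f` -/
lemma cop_harm {f : ℕ} (hf : f ≠ 0) {y : ℝ} (hy : 0 < y) :
    |∑ n ∈ Ioc 0 ⌊y⌋₊, gA f (fun n => (n : ℝ)⁻¹) n - (af f * Real.log y + Kf f)| ≤
      2 * hh f * (Real.sqrt y)⁻¹ := by
  have hs : 0 < Real.sqrt y := Real.sqrt_pos.2 hy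
  rw [cop_sum hf _ (fun m n _ _ => by push_cast; rw [mul_inv])]
  have h1 : ∑ d ∈ f.divisors, mu d * (d : ℝ)⁻¹ * ∑ k ∈ Ioc 0 (⌊y⌋₊ / d), (k : ℝ)⁻¹ -
      (af f * Real.log y + Kf f) = ∑ d ∈ f.divisors, mu d * (d : ℝ)⁻¹ *
        (∑ k ∈ Ioc 0 ⌊y / d⌋₊, (k : ℝ)⁻¹ - Real.log (y / d) - Real.eulerMascheroniConstant) := by
    unfold af Kf
    rw [Finset.sum_mul, ← Finset.sum_add_distrib, ← Finset.sum_sub_distrib]
    refine Finset.sum_congr rfl fun d hd => ?_
    have hd1 : 1 ≤ d := Nat.pos_of_mem_divisors hd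
    have hd0 : (d : ℝ) ≠ 0 := by positivity
    rw [Real.log_div hy.ne' hd0, Nat.floor_div_natCast]
    ring
  rw [h1]
  unfold hh
  rw [Finset.mul_sum, Finset.sum_mul]
  refine (Finset.abs_sum_le_sum_abs _ _).trans (Finset.sum_le_sum fun d hd => ?_)
  have hd1 : 1 ≤ d := Nat.pos_of_mem_divisors hd
  have hd0 : (0 : ℝ) < d := by exact_mod_cast hd1
  have hsd : 0 < Real.sqrt d := Real.sqrt_pos.2 hd0
  have h2 := harm_err (t := y / d) (by positivity)
  rw [xs_eq_sqrt d hy hd1] at h2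
  rw [abs_mul, abs_mul]
  have h3 : |(d : ℝ)⁻¹| = xs d * xs d := by rw [abs_of_nonneg (by positivity), inv_eq]
  rw [h3]
  have h4 : xs d * Real.sqrt d = 1 := by unfold xs; exact inv_mul_cancel₀ hsd.ne'
  calc _ ≤ 1 * (xs d * xs d) * (2 * (Real.sqrt d * (Real.sqrt y)⁻¹)) :=
        mul_le_mul (mul_le_mul_of_nonneg_right (abs_mu_le d) (mul_nonneg (xs_nn d) (xs_nn d))) h2
          (abs_nonneg _) (by have := mul_nonneg (xs_nn d) (xs_nn d); linarith)
    _ = 2 * xs d * (xs d * Real.sqrt d) * (Real.sqrt y)⁻¹ := by ring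
    _ = 2 * xs d * (Real.sqrt y)⁻¹ := by rw [h4, mul_one]

/-- the number of the integers prime to `f` -/
lemma cop_card {f : ℕ} (hf : f ≠ 0) {y : ℝ} (hy : 0 < y) :
    |∑ n ∈ Ioc 0 ⌊y⌋₊, gA f (fun _ => 1) n - af f * y| ≤ hh f * Real.sqrt y := by
  have hs : 0 < Real.sqrt y := Real.sqrt_pos.2 hy
  rw [cop_sum hf _ (fun m n _ _ => by ring)]
  have h1 : ∑ d ∈ f.divisors, mu d * 1 * ∑ _k ∈ Ioc 0 (⌊y⌋₊ / d), (1 : ℝ) - af f * y =
      ∑ d ∈ f.divisors, mu d * ((⌊y / d⌋₊ : ℝ) - y / d) := by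
    unfold af
    rw [Finset.sum_mul, ← Finset.sum_sub_distrib]
    refine Finset.sum_congr rfl fun d hd => ?_
    rw [Nat.floor_div_natCast, Finset.sum_const, Nat.card_Ioc, nsmul_eq_mul]
    simp only [Nat.sub_zero]
    ring
  rw [h1]
  unfold hh
  rw [Finset.sum_mul]
  refine (Finset.abs_sum_le_sum_abs _ _).trans (Finset.sum_le_sum fun d hd => ?_)
  have hd1 : 1 ≤ d := Nat.pos_of_mem_divisors hd
  have hd0 : (0 : ℝ) < d := by exact_mod_cast hd1
  have h2 := floor_err (t := y / d) (by positivity)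
  rw [abs_mul]
  calc _ ≤ 1 * Real.sqrt (y / d) := mul_le_mul (abs_mu_le d) h2 (abs_nonneg _) zero_le_one
    _ = xs d * Real.sqrt y := by
        rw [Real.sqrt_div hy.le, one_mul]
        unfold xs
        ring

/-- `∑_{m ≤ N} m^{-1/2} ≤ 2 √N` -/
lemma sum_xs_le (N : ℕ) : ∑ m ∈ Ioc 0 N, xs m ≤ 2 * Real.sqrt N := by
  induction N with
  | zero => simp
  | succ n ih =>
    rw [Finset.sum_Ioc_succ_top (Nat.zero_le n)]
    have h1 : xs (n + 1) ≤ 2 * Real.sqrt ((n + 1 : ℕ) : ℝ) - 2 * Real.sqrt n := by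
      unfold xs
      push_cast
      have ha : 0 ≤ Real.sqrt n := Real.sqrt_nonneg _
      have hb : 0 < Real.sqrt ((n : ℝ) + 1) := Real.sqrt_pos.2 (by positivity)
      have hab : Real.sqrt n ≤ Real.sqrt ((n : ℝ) + 1) := Real.sqrt_le_sqrt (by linarith)
      have h2 : Real.sqrt n * Real.sqrt n = n := Real.mul_self_sqrt (by positivity)
      have h3 : Real.sqrt ((n : ℝ) + 1) * Real.sqrt ((n : ℝ) + 1) = n + 1 :=
        Real.mul_self_sqrt (by positivity)
      rw [inv_eq_one_div, div_le_iff₀ hb]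
      nlinarith
    linarith

end Pool.Agent.E8helper22.MW
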