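import Pool.Agent.E8helper22.MW.BV1

/-!
# Bounds for the Möbius sums with a coprimality condition
-/

set_option autoImplicit false

namespace Pool.Agent.E8helper22.MW

open Finset MeasureTheory intervalIntegral

/-- the majorant -/
noncomputable def VV (f : ℕ) : ℝ := ∏ p ∈ f.primeFactors, (1 + 4 * xs p)

lemma one_le_VV (f : ℕ) : 1 ≤ VV f := by
  unfold VV
  calc (1 : ℝ) = ∏ p ∈ f.primeFactors, (1 : ℝ) := by simp
    _ ≤ _ := Finset.prod_le_prod (fun _ _ => zero_le_one) fun p _ => by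
        have := xs_nn p
        linarith

/-- the arithmetic function `n ↦ n^{-1/2}` -/
noncomputable def xA : ArithmeticFunction ℝ := ⟨fun n => if n = 0 then 0 else xs n, by simp⟩

/-- the arithmetic function `n ↦ 1/n` -/
noncomputable def iA : ArithmeticFunction ℝ := ⟨fun n => (n : ℝ)⁻¹, by simp⟩

lemma xA_apply (n : ℕ) : xA n = if n = 0 then 0 else xs n := rfl

lemma iA_apply (n : ℕ) : iA n = (n : ℝ)⁻¹ := rfl

lemma xA_mult : xA.IsMultiplicative := by
  rw [ArithmeticFunction.IsMultiplicative.iff_ne_zero]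
  refine ⟨by simp [xA_apply, xs_one], fun {m n} hm hn _ => ?_⟩
  rw [xA_apply, xA_apply, xA_apply, if_neg hm, if_neg hn, if_neg (Nat.mul_ne_zero hm hn), xs_mul]

lemma iA_mult : iA.IsMultiplicative := by
  rw [ArithmeticFunction.IsMultiplicative.iff_ne_zero]
  refine ⟨by simp [iA_apply], fun {m n} hm hn _ => ?_⟩
  rw [iA_apply, iA_apply, iA_apply]
  push_cast
  rw [mul_inv]

lemma hh_prod {f : ℕ} (hf : Squarefree f) : hh f = ∏ p ∈ f.primeFactors, (1 + xs p) := by
  have h := xA_mult.prodPrimeFactors_one_add_of_squarefree hf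
  have h2 : hh f = ∑ d ∈ f.divisors, xA d := by
    unfold hh
    refine Finset.sum_congr rfl fun d hd => ?_
    rw [xA_apply, if_neg (Nat.pos_of_mem_divisors hd).ne']
  rw [h2, ← h]
  refine Finset.prod_congr rfl fun p hp => ?_
  rw [xA_apply, if_neg (Nat.prime_of_mem_primeFactors hp).ne_zero]

lemma af_prod {f : ℕ} (hf : Squarefree f) : af f = ∏ p ∈ f.primeFactors, (1 - xs p ^ 2) := by
  have h := ArithmeticFunction.IsMultiplicative.prodPrimeFactors_one_sub_of_squarefree iA iA_mult hf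
  unfold af mu
  have h2 : ∑ d ∈ f.divisors, (((ArithmeticFunction.moebius d : ℤ) : ℝ)) * (d : ℝ)⁻¹ =
      ∑ d ∈ f.divisors, (((ArithmeticFunction.moebius d : ℤ) : ℝ)) * iA d := rfl
  rw [h2, ← h]
  refine Finset.prod_congr rfl fun p hp => ?_
  rw [iA_apply, xs_sq]

lemma xs_prime {p : ℕ} (hp : p.Prime) : xs p ≤ 3 / 4 := by
  unfold xs
  have h2 : (2 : ℝ) ≤ p := by exact_mod_cast hp.two_le
  have h3 : (4 / 3 : ℝ) ≤ Real.sqrt p := by
    apply Real.le_sqrt_of_sq_le
    norm_num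
    linarith
  rw [inv_le_comm₀ (by linarith) (by norm_num)]
  norm_num
  linarith

lemma af_pos {f : ℕ} (hf : Squarefree f) : 0 < af f := by
  rw [af_prod hf]
  refine Finset.prod_pos fun p hp => ?_
  have h1 := xs_prime (Nat.prime_of_mem_primeFactors hp)
  have h2 := xs_nn p
  nlinarith

lemma hh_le {f : ℕ} (hf : Squarefree f) : hh f ≤ af f * VV f := by
  rw [hh_prod hf, af_prod hf]
  unfold VV
  rw [← Finset.prod_mul_distrib]
  refine Finset.prod_le_prod (fun p _ => by have := xs_nn p; linarith) fun p hp => ?_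
  have h1 := xs_prime (Nat.prime_of_mem_primeFactors hp)
  have h2 := xs_nn p
  have h3 : 0 ≤ (1 + xs p) * (xs p * (3 - 4 * xs p)) := by
    apply mul_nonneg (by linarith)
    apply mul_nonneg h2
    linarith
  nlinarith

/-- `∑ μ(m)/m` over `m ≤ Z` prime to `f` -/
noncomputable def GG (f : ℕ) (Z : ℝ) : ℝ := ∑ m ∈ Ioc 0 ⌊Z⌋₊, fA f (fun n => (n : ℝ)⁻¹) m

/-- `∑ μ(m)/m log (Z/m)` over `m ≤ Z` prime to `f` -/
noncomputable def BB (f : ℕ) (Z : ℝ) : ℝ :=
  ∑ m ∈ Ioc 0 ⌊Z⌋₊, fA f (fun n => (n : ℝ)⁻¹) m * Real.log (Z / m)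

lemma abs_fA_le (f : ℕ) (w : ℕ → ℝ) (hw : ∀ n, 0 ≤ w n) (m : ℕ) : |fA f w m| ≤ w m := by
  rw [fA_apply]
  split_ifs with h1 h2
  · rw [abs_zero]; exact hw m
  · rw [abs_mul, abs_of_nonneg (hw m)]
    exact mul_le_of_le_one_left (hw m) (abs_mu_le m)
  · rw [abs_zero]; exact hw m

lemma GG_bd {f : ℕ} (hf : f ≠ 0) (h0 : 0 ≤ af f) {Z : ℝ} (hZ : 1 ≤ Z) :
    af f * |GG f Z| ≤ 3 * hh f := by
  have hZ0 : 0 < Z := by linarith
  set N := ⌊Z⌋₊ with hN
  have hN1 : 1 ≤ N := Nat.le_floor (by simpa using hZ)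
  have hNZ : (N : ℝ) ≤ Z := Nat.floor_le hZ0.le
  have hid := inv_id f (fun _ => 1) rfl (fun _ _ _ _ => by ring) hN1
  have h1 : af f * Z * GG f Z - 1 = - ∑ m ∈ Ioc 0 N, fA f (fun _ => 1) m *
      (∑ n ∈ Ioc 0 ⌊Z / m⌋₊, gA f (fun _ => 1) n - af f * (Z / m)) := by
    refine (congrArg (fun y => af f * Z * GG f Z - y) hid.symm).trans ?_
    unfold GG
    rw [Finset.mul_sum, ← Finset.sum_sub_distrib, ← Finset.sum_neg_distrib]
    refine Finset.sum_congr rfl fun m hm => ?_
    rw [mem_Ioc] at hm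
    have hm0 : m ≠ 0 := by omega
    have hmr : (m : ℝ) ≠ 0 := by exact_mod_cast hm0
    rw [Nat.floor_div_natCast, fA_apply, fA_apply, if_neg hm0, if_neg hm0]
    split_ifs
    · field_simp
      ring
    · ring
  have h2 : |af f * Z * GG f Z - 1| ≤ 2 * hh f * Z := by
    rw [h1, abs_neg]
    calc _ ≤ ∑ m ∈ Ioc 0 N, hh f * Real.sqrt Z * xs m := by
          refine (Finset.abs_sum_le_sum_abs _ _).trans (Finset.sum_le_sum fun m hm => ?_)
          rw [mem_Ioc] at hm
          have hmr : (0 : ℝ) < m := by exact_mod_cast hm.1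
          have h3 := cop_card hf (y := Z / m) (by positivity)
          rw [Real.sqrt_div hZ0.le] at h3
          rw [abs_mul]
          calc _ ≤ 1 * (hh f * (Real.sqrt Z / Real.sqrt m)) :=
                mul_le_mul (abs_fA_le f _ (fun _ => zero_le_one) m) h3 (abs_nonneg _) zero_le_one
            _ = _ := by unfold xs; ring
      _ = hh f * Real.sqrt Z * ∑ m ∈ Ioc 0 N, xs m := by rw [Finset.mul_sum]
      _ ≤ hh f * Real.sqrt Z * (2 * Real.sqrt Z) := by
          refine mul_le_mul_of_nonneg_left ((sum_xs_le N).trans ?_)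
            (mul_nonneg (hh_nn f) (Real.sqrt_nonneg _))
          have := Real.sqrt_le_sqrt hNZ
          linarith
      _ = 2 * hh f * (Real.sqrt Z * Real.sqrt Z) := by ring
      _ = _ := by rw [Real.mul_self_sqrt hZ0.le]
  have h3 : af f * Z * |GG f Z| ≤ 1 + 2 * hh f * Z := by
    have h4 : |af f * Z * GG f Z| ≤ |af f * Z * GG f Z - 1| + |(1 : ℝ)| := by
      have := abs_add_le (af f * Z * GG f Z - 1) 1
      simpa using this
    rw [abs_mul, abs_of_nonneg (mul_nonneg h0 hZ0.le), abs_one] at h4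
    linarith
  have h5 := one_le_hh hf
  have h6 : (1 : ℝ) ≤ hh f * Z := by nlinarith
  have h7 : Z * (af f * |GG f Z|) ≤ Z * (3 * hh f) := by nlinarith
  exact le_of_mul_le_mul_left h7 hZ0

theorem BB_bd {f : ℕ} (hf : Squarefree f) {Z : ℝ} (hZ : 1 ≤ Z) : |BB f Z| ≤ 11 * VV f ^ 2 := by
  have hf0 : f ≠ 0 := hf.ne_zero
  have ha := af_pos hf
  have hZ0 : 0 < Z := by linarith
  set N := ⌊Z⌋₊ with hN
  have hN1 : 1 ≤ N := Nat.le_floor (by simpa using hZ)
  have hNZ : (N : ℝ) ≤ Z := Nat.floor_le hZ0.le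
  have hid := inv_id f (fun n => (n : ℝ)⁻¹) (by simp) (fun m n _ _ => by push_cast; rw [mul_inv]) hN1
  have h1 : af f * BB f Z + Kf f * GG f Z - 1 = - ∑ m ∈ Ioc 0 N, fA f (fun n => (n : ℝ)⁻¹) m *
      (∑ n ∈ Ioc 0 ⌊Z / m⌋₊, gA f (fun n => (n : ℝ)⁻¹) n - (af f * Real.log (Z / m) + Kf f)) := by
    refine (congrArg (fun y => af f * BB f Z + Kf f * GG f Z - y) hid.symm).trans ?_
    unfold GG BB
    rw [Finset.mul_sum, Finset.mul_sum, ← Finset.sum_add_distrib, ← Finset.sum_sub_distrib,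
      ← Finset.sum_neg_distrib]
    refine Finset.sum_congr rfl fun m hm => ?_
    rw [Nat.floor_div_natCast]
    ring
  have hsZ : 0 < Real.sqrt Z := Real.sqrt_pos.2 hZ0
  have h2 : |af f * BB f Z + Kf f * GG f Z - 1| ≤ 4 * hh f := by
    rw [h1, abs_neg]
    calc _ ≤ ∑ m ∈ Ioc 0 N, 2 * hh f * (Real.sqrt Z)⁻¹ * xs m := by
          refine (Finset.abs_sum_le_sum_abs _ _).trans (Finset.sum_le_sum fun m hm => ?_)
          rw [mem_Ioc] at hm
          have hm1 : 1 ≤ m := hm.1
          have hmr : (0 : ℝ) < m := by exact_mod_cast hm.1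
          have hsm : 0 < Real.sqrt m := Real.sqrt_pos.2 hmr
          have h3 := cop_harm hf0 (y := Z / m) (by positivity)
          rw [xs_eq_sqrt m hZ0 hm1] at h3
          rw [abs_mul]
          calc _ ≤ (m : ℝ)⁻¹ * (2 * hh f * (Real.sqrt m * (Real.sqrt Z)⁻¹)) :=
                mul_le_mul (abs_fA_le f _ (fun _ => by positivity) m) h3 (abs_nonneg _)
                  (by positivity)
            _ = 2 * hh f * (Real.sqrt Z)⁻¹ * (xs m * (xs m * Real.sqrt m)) := by
                rw [inv_eq]; ring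
            _ = _ := by
                have : xs m * Real.sqrt m = 1 := by unfold xs; exact inv_mul_cancel₀ hsm.ne'
                rw [this, mul_one]
      _ = 2 * hh f * (Real.sqrt Z)⁻¹ * ∑ m ∈ Ioc 0 N, xs m := by rw [Finset.mul_sum]
      _ ≤ 2 * hh f * (Real.sqrt Z)⁻¹ * (2 * Real.sqrt Z) := by
          refine mul_le_mul_of_nonneg_left ((sum_xs_le N).trans ?_)
            (mul_nonneg (mul_nonneg two_pos.le (hh_nn f)) (by positivity))
          have := Real.sqrt_le_sqrt hNZ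
          linarith
      _ = 4 * hh f * ((Real.sqrt Z)⁻¹ * Real.sqrt Z) := by ring
      _ = _ := by rw [inv_mul_cancel₀ hsZ.ne', mul_one]
  have hG : |GG f Z| ≤ 3 * VV f := by
    have h3 := GG_bd hf0 ha.le hZ
    have h4 := hh_le hf
    have h5 : af f * |GG f Z| ≤ af f * (3 * VV f) := by linarith
    exact le_of_mul_le_mul_left h5 ha
  have h3 : |af f * BB f Z| ≤ |af f * BB f Z + Kf f * GG f Z - 1| + |Kf f * GG f Z| + 1 := by
    have e : af f * BB f Z = (af f * BB f Z + Kf f * GG f Z - 1) + (-(Kf f * GG f Z)) + 1 := by ring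
    calc |af f * BB f Z| = |(af f * BB f Z + Kf f * GG f Z - 1) + (-(Kf f * GG f Z)) + 1| := by
          rw [← e]
      _ ≤ |(af f * BB f Z + Kf f * GG f Z - 1) + (-(Kf f * GG f Z))| + |(1 : ℝ)| := abs_add_le _ _
      _ ≤ |af f * BB f Z + Kf f * GG f Z - 1| + |-(Kf f * GG f Z)| + |(1 : ℝ)| := by
          gcongr
          exact abs_add_le _ _
      _ = _ := by rw [abs_neg, abs_one]
  rw [abs_mul, abs_of_pos ha, abs_mul] at h3
  have hV := one_le_VV f
  have h5 := one_le_hh hf0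
  have h6 : |Kf f| * |GG f Z| ≤ 2 * hh f * (3 * VV f) :=
    mul_le_mul (abs_Kf f) hG (abs_nonneg _) (by linarith)
  have h7 : af f * |BB f Z| ≤ 11 * (hh f * VV f) := by nlinarith
  have h8 : hh f * VV f ≤ af f * VV f * VV f := mul_le_mul_of_nonneg_right (hh_le hf) (by linarith)
  have h9 : af f * |BB f Z| ≤ af f * (11 * VV f ^ 2) := by nlinarith
  exact le_of_mul_le_mul_left h9 ha

/-- the sum in logarithmic form -/
noncomputable def BL (f N : ℕ) (x : ℝ) : ℝ :=
  ∑ m ∈ Ioc 0 N, fA f (fun n => (n : ℝ)⁻¹) m * max (x - Real.log m) 0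

lemma BL_bd {f : ℕ} (hf : Squarefree f) {N : ℕ} {x : ℝ} (hx : 0 ≤ x) (hN : Real.exp x < N + 1) :
    |BL f N x| ≤ 11 * VV f ^ 2 := by
  have h1 : BL f N x = BB f (Real.exp x) := by
    unfold BL BB
    have hfl : ⌊Real.exp x⌋₊ ≤ N := by
      have := (Nat.floor_lt (Real.exp_pos x).le).2 (show Real.exp x < ((N + 1 : ℕ) : ℝ) by
        push_cast; exact hN)
      omega
    rw [← Finset.sum_subset (Finset.Ioc_subset_Ioc_right hfl)]
    · refine Finset.sum_congr rfl fun m hm => ?_
      rw [mem_Ioc] at hm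
      have hm0 : (0 : ℝ) < m := by exact_mod_cast hm.1
      have hmx : (m : ℝ) ≤ Real.exp x := (Nat.le_floor_iff (Real.exp_pos x).le).1 hm.2
      rw [Real.log_div (Real.exp_pos x).ne' hm0.ne', Real.log_exp, max_eq_left]
      have := Real.log_le_log hm0 hmx
      rw [Real.log_exp] at this
      linarith
    · intro m hm hm'
      rw [mem_Ioc] at hm
      rw [mem_Ioc, not_and, not_le] at hm'
      have h2 := (Nat.floor_lt (Real.exp_pos x).le).1 (hm' hm.1)
      have h3 : x < Real.log m := by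
        rw [Real.lt_log_iff_exp_lt (by exact_mod_cast hm.1)]
        exact h2
      rw [max_eq_right (by linarith), mul_zero]
  rw [h1]
  exact BB_bd hf (by rw [← Real.exp_zero]; exact Real.exp_le_exp.2 hx)

/-- the second derivative of `e^{-κx}(z-x)` -/
noncomputable def psi2 (κ z x : ℝ) : ℝ := (κ ^ 2 * (z - x) + 2 * κ) * Real.exp (-κ * x)

lemma psi2_cont (κ z : ℝ) : Continuous (psi2 κ z) := by unfold psi2; fun_prop

lemma psi2_nn {κ z x : ℝ} (hκ : 0 ≤ κ) (hx : x ≤ z) : 0 ≤ psi2 κ z x := by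
  unfold psi2
  have h1 : 0 ≤ κ ^ 2 * (z - x) := mul_nonneg (sq_nonneg _) (by linarith)
  have := Real.exp_pos (-κ * x)
  positivity

lemma psi2_int (κ z : ℝ) : ∫ x in (0 : ℝ)..z, psi2 κ z x = 1 + κ * z - Real.exp (-κ * z) := by
  have h1 : ∀ x ∈ Set.uIcc 0 z, HasDerivAt
      (fun x : ℝ => -(κ * (z - x) + 1) * Real.exp (-κ * x)) (psi2 κ z x) x := by
    intro x _
    have h2 : HasDerivAt (fun x : ℝ => Real.exp (-κ * x)) (Real.exp (-κ * x) * (-κ)) x := by
      have := ((hasDerivAt_id x).const_mul (-κ)).exp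
      simpa using this
    have h3 : HasDerivAt (fun x : ℝ => -(κ * (z - x) + 1)) κ x := by
      have := ((((hasDerivAt_id' x).const_sub z).const_mul κ).add_const 1).fun_neg
      simpa using this
    refine (h3.mul h2).congr_deriv ?_
    unfold psi2
    ring
  rw [intervalIntegral.integral_eq_sub_of_hasDerivAt h1 ((psi2_cont κ z).intervalIntegrable _ _)]
  simp
  ring

/-- Taylor's formula from the right end point -/
lemma psi_taylor {κ z t : ℝ} (ht : 0 ≤ t) (htz : t ≤ z) :
    Real.exp (-κ * t) * (z - t) = Real.exp (-κ * z) * (z - t) +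
      ∫ x in (0 : ℝ)..z, psi2 κ z x * max (x - t) 0 := by
  have hc : Continuous fun x => psi2 κ z x * max (x - t) 0 :=
    (psi2_cont κ z).mul (by fun_prop)
  rw [← intervalIntegral.integral_add_adjacent_intervals (b := t) (hc.intervalIntegrable _ _)
    (hc.intervalIntegrable _ _)]
  have e1 : ∫ x in (0 : ℝ)..t, psi2 κ z x * max (x - t) 0 = 0 := by
    have : ∫ x in (0 : ℝ)..t, psi2 κ z x * max (x - t) 0 = ∫ x in (0 : ℝ)..t, (0 : ℝ) := by
      refine intervalIntegral.integral_congr fun x hx => ?_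
      rw [Set.uIcc_of_le ht] at hx
      change psi2 κ z x * max (x - t) 0 = 0
      rw [max_eq_right (by linarith [hx.2]), mul_zero]
    rw [this]
    simp
  have e2 : ∫ x in t..z, psi2 κ z x * max (x - t) 0 = ∫ x in t..z, psi2 κ z x * (x - t) := by
    refine intervalIntegral.integral_congr fun x hx => ?_
    rw [Set.uIcc_of_le htz] at hx
    change psi2 κ z x * max (x - t) 0 = psi2 κ z x * (x - t)
    rw [max_eq_left (by linarith [hx.1])]
  have h1 : ∀ x ∈ Set.uIcc t z, HasDerivAt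
      (fun x : ℝ => -(κ * (z - x) + 1) * Real.exp (-κ * x) * (x - t) - Real.exp (-κ * x) * (z - x))
      (psi2 κ z x * (x - t)) x := by
    intro x _
    have h2 : HasDerivAt (fun x : ℝ => Real.exp (-κ * x)) (Real.exp (-κ * x) * (-κ)) x := by
      have := ((hasDerivAt_id x).const_mul (-κ)).exp
      simpa using this
    have h3 : HasDerivAt (fun x : ℝ => -(κ * (z - x) + 1)) κ x := by
      have := ((((hasDerivAt_id' x).const_sub z).const_mul κ).add_const 1).fun_neg
      simpa using this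
    have h4 : HasDerivAt (fun x : ℝ => x - t) 1 x := (hasDerivAt_id x).sub_const t
    have h5 : HasDerivAt (fun x : ℝ => z - x) (-1) x := (hasDerivAt_id x).const_sub z
    refine (((h3.fun_mul h2).fun_mul h4).fun_sub (h2.fun_mul h5)).congr_deriv ?_
    unfold psi2
    ring
  rw [e1, e2, intervalIntegral.integral_eq_sub_of_hasDerivAt h1
    (((psi2_cont κ z).mul (by fun_prop)).intervalIntegrable _ _)]
  ring

/-- the sum with the factor `m^{-κ}` -/
noncomputable def BK (f N : ℕ) (κ z : ℝ) : ℝ :=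
  ∑ m ∈ Ioc 0 N, fA f (fun n => (n : ℝ)⁻¹) m *
    (Real.exp (-κ * Real.log m) * max (z - Real.log m) 0)

theorem BK_bd {f : ℕ} (hf : Squarefree f) {N : ℕ} {κ z : ℝ} (hκ : 0 ≤ κ) (hz : 0 ≤ z)
    (hN : Real.exp z < N + 1) : |BK f N κ z| ≤ 11 * VV f ^ 2 * (1 + κ * z) := by
  set M := 11 * VV f ^ 2 with hM
  have hM0 : 0 ≤ M := by positivity
  have h1 : BK f N κ z = Real.exp (-κ * z) * BL f N z +
      ∫ x in (0 : ℝ)..z, psi2 κ z x * BL f N x := by
    have hint : ∫ x in (0 : ℝ)..z, psi2 κ z x * BL f N x = ∑ m ∈ Ioc 0 N,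
        fA f (fun n => (n : ℝ)⁻¹) m * ∫ x in (0 : ℝ)..z, psi2 κ z x * max (x - Real.log m) 0 := by
      have e : ∀ x, psi2 κ z x * BL f N x = ∑ m ∈ Ioc 0 N,
          fA f (fun n => (n : ℝ)⁻¹) m * (psi2 κ z x * max (x - Real.log m) 0) := by
        intro x
        unfold BL
        rw [Finset.mul_sum]
        exact Finset.sum_congr rfl fun m _ => by ring
      simp_rw [e]
      rw [intervalIntegral.integral_finsetSum]
      · refine Finset.sum_congr rfl fun m _ => ?_
        rw [intervalIntegral.integral_const_mul]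
      · intro m _
        exact (continuous_const.mul ((psi2_cont κ z).mul (by fun_prop))).intervalIntegrable _ _
    rw [hint]
    unfold BK BL
    rw [Finset.mul_sum, ← Finset.sum_add_distrib]
    refine Finset.sum_congr rfl fun m hm => ?_
    rw [mem_Ioc] at hm
    have hm0 : (1 : ℝ) ≤ m := by exact_mod_cast hm.1
    have hl : 0 ≤ Real.log m := Real.log_nonneg hm0
    rcases le_or_gt (Real.log m) z with h | h
    · rw [max_eq_left (by linarith), psi_taylor hl h]
      ring
    · have e0 : ∫ x in (0 : ℝ)..z, psi2 κ z x * max (x - Real.log m) 0 = 0 := by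
        have : ∫ x in (0 : ℝ)..z, psi2 κ z x * max (x - Real.log m) 0 =
            ∫ x in (0 : ℝ)..z, (0 : ℝ) := by
          refine intervalIntegral.integral_congr fun x hx => ?_
          rw [Set.uIcc_of_le hz] at hx
          rw [max_eq_right (by linarith [hx.2]), mul_zero]
        rw [this]
        simp
      rw [max_eq_right (by linarith), e0]
      ring
  have h2 : |∫ x in (0 : ℝ)..z, psi2 κ z x * BL f N x| ≤ ∫ x in (0 : ℝ)..z, psi2 κ z x * M := by
    rw [← Real.norm_eq_abs]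
    refine intervalIntegral.norm_integral_le_of_norm_le hz ?_
      (((psi2_cont κ z).mul continuous_const).intervalIntegrable _ _)
    refine Filter.Eventually.of_forall fun x hx => ?_
    rw [Real.norm_eq_abs, abs_mul, abs_of_nonneg (psi2_nn hκ hx.2)]
    refine mul_le_mul_of_nonneg_left (BL_bd hf hx.1.le ?_) (psi2_nn hκ hx.2)
    exact lt_of_le_of_lt (Real.exp_le_exp.2 hx.2) hN
  rw [intervalIntegral.integral_mul_const, psi2_int] at h2
  have h3 := BL_bd hf hz hN
  have h4 := Real.exp_pos (-κ * z)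
  rw [h1]
  calc |Real.exp (-κ * z) * BL f N z + ∫ x in (0 : ℝ)..z, psi2 κ z x * BL f N x|
      ≤ |Real.exp (-κ * z) * BL f N z| + |∫ x in (0 : ℝ)..z, psi2 κ z x * BL f N x| :=
        abs_add_le _ _
    _ ≤ Real.exp (-κ * z) * M + (1 + κ * z - Real.exp (-κ * z)) * M := by
        rw [abs_mul, abs_of_pos h4]
        gcongr
    _ = _ := by ring

end Pool.Agent.E8helper22.MW
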