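import Pool.Agent.E8helper22.MW.BV2

/-!
# The mean square of Selberg's weights (Barban and Vehov, Graham)
-/

set_option autoImplicit false

namespace Pool.Agent.E8helper22.MW

open Finset

/-- `∏ (1 + 624 p^{-1/2})` -/
noncomputable def UU (f : ℕ) : ℝ := ∏ p ∈ f.primeFactors, (1 + 624 * xs p)

lemma VV_sq_le (f : ℕ) : (VV f ^ 2) ^ 2 ≤ UU f := by
  unfold VV UU
  rw [← pow_mul, ← Finset.prod_pow]
  refine Finset.prod_le_prod (fun p _ => by have := xs_nn p; positivity) fun p hp => ?_
  have h1 := xs_nn p
  have h2 := xs_le_one (Nat.prime_of_mem_primeFactors hp).one_le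
  have h3 : (1 + 4 * xs p) ^ 4 = 1 + 16 * xs p + 96 * xs p ^ 2 + 256 * xs p ^ 3 + 256 * xs p ^ 4 := by
    ring
  have h4 : xs p ^ 2 ≤ xs p := by nlinarith
  have h5 : xs p ^ 3 ≤ xs p := by
    calc xs p ^ 3 = xs p ^ 2 * xs p := by ring
      _ ≤ 1 * xs p := by gcongr; nlinarith
      _ = xs p := one_mul _
  have h6 : xs p ^ 4 ≤ xs p := by
    calc xs p ^ 4 = xs p ^ 3 * xs p := by ring
      _ ≤ 1 * xs p := by gcongr; nlinarith
      _ = xs p := one_mul _
  norm_num
  rw [h3]
  linarith

/-- the arithmetic function `∏_{p | n} c p` -/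
lemma mult_prod_sum (c : ℕ → ℝ) {f : ℕ} (hf : Squarefree f) :
    ∏ p ∈ f.primeFactors, (1 + c p) = ∑ d ∈ f.divisors, ∏ p ∈ d.primeFactors, c p := by
  have h := (ArithmeticFunction.IsMultiplicative.prodPrimeFactors c).prodPrimeFactors_one_add_of_squarefree hf
  have e1 : ∏ p ∈ f.primeFactors, (1 + c p) =
      ∏ p ∈ f.primeFactors, (1 + ArithmeticFunction.prodPrimeFactors c p) := by
    refine Finset.prod_congr rfl fun p hp => ?_
    have hp' := Nat.prime_of_mem_primeFactors hp
    rw [ArithmeticFunction.prodPrimeFactors_apply hp'.ne_zero, hp'.primeFactors,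
      Finset.prod_singleton]
  rw [e1, h]
  refine Finset.sum_congr rfl fun d hd => ?_
  rw [ArithmeticFunction.prodPrimeFactors_apply (Nat.pos_of_mem_divisors hd).ne']

/-- `∏_{p | d} 624 p^{-1/2}` -/
noncomputable def bb (d : ℕ) : ℝ := ∏ p ∈ d.primeFactors, (624 * xs p)

lemma bb_nn (d : ℕ) : 0 ≤ bb d := Finset.prod_nonneg fun p _ => by have := xs_nn p; positivity

lemma UU_eq {f : ℕ} (hf : Squarefree f) : UU f = ∑ d ∈ f.divisors, bb d := mult_prod_sum _ hf

lemma sum_inv_le (N : ℕ) : ∑ n ∈ Ioc 0 N, (n : ℝ)⁻¹ ≤ 1 + Real.log N := by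
  have h := harmonic_le_one_add_log N
  rw [harmonic_eq_sum_Icc] at h
  push_cast at h
  exact h

/-- the constant -/
noncomputable def Cb : ℝ := Real.exp (∑' n : ℕ, 624 * (n : ℝ) ^ (-(3 / 2) : ℝ))

lemma xs_div (n : ℕ) (hn : n ≠ 0) : xs n / n = (n : ℝ) ^ (-(3 / 2) : ℝ) := by
  have h0 : (0 : ℝ) < n := by exact_mod_cast Nat.pos_of_ne_zero hn
  unfold xs
  rw [Real.sqrt_eq_rpow, ← Real.rpow_neg h0.le, div_eq_mul_inv, ← Real.rpow_neg_one (n : ℝ),
    ← Real.rpow_add h0]
  norm_num

lemma bb_sum_le (N : ℕ) : ∑ d ∈ (Ioc 0 N).filter Squarefree, bb d / d ≤ Cb := by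
  set P := (Ioc 0 N).filter Nat.Prime with hP
  have h1 : ∏ p ∈ P, (1 + 624 * xs p / p) ≤ Cb := by
    calc ∏ p ∈ P, (1 + 624 * xs p / p) ≤ ∏ p ∈ P, Real.exp (624 * xs p / p) := by
          refine Finset.prod_le_prod (fun p _ => ?_) fun p _ => ?_
          · have := xs_nn p; positivity
          · have := Real.add_one_le_exp (624 * xs p / p)
            linarith
      _ = Real.exp (∑ p ∈ P, 624 * xs p / p) := by rw [Real.exp_sum]
      _ ≤ Cb := by
          unfold Cb
          apply Real.exp_le_exp.2
          have hs : Summable fun n : ℕ => 624 * (n : ℝ) ^ (-(3 / 2) : ℝ) :=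
            (Real.summable_nat_rpow.2 (by norm_num)).mul_left _
          calc ∑ p ∈ P, 624 * xs p / p = ∑ p ∈ P, 624 * (p : ℝ) ^ (-(3 / 2) : ℝ) := by
                refine Finset.sum_congr rfl fun p hp => ?_
                rw [hP, Finset.mem_filter] at hp
                rw [mul_div_assoc, xs_div p hp.2.ne_zero]
            _ ≤ _ := hs.sum_le_tsum _ fun n _ => by positivity
  refine le_trans ?_ h1
  rw [Finset.prod_one_add]
  have hinj : Set.InjOn Nat.primeFactors ((Ioc 0 N).filter Squarefree : Set ℕ) := by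
    intro a ha b hb hab
    simp only [Finset.coe_filter, mem_Ioc, Set.mem_ofPred_eq] at ha hb
    rw [← Nat.prod_primeFactors_of_squarefree ha.2, ← Nat.prod_primeFactors_of_squarefree hb.2, hab]
  calc ∑ d ∈ (Ioc 0 N).filter Squarefree, bb d / d
      = ∑ d ∈ (Ioc 0 N).filter Squarefree, ∏ p ∈ d.primeFactors, (624 * xs p / p) := by
        refine Finset.sum_congr rfl fun d hd => ?_
        rw [Finset.mem_filter] at hd
        rw [Finset.prod_div_distrib]
        unfold bb
        congr 1
        have := Nat.prod_primeFactors_of_squarefree hd.2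
        conv_lhs => rw [← this]
        push_cast
        rfl
    _ = ∑ T ∈ ((Ioc 0 N).filter Squarefree).image Nat.primeFactors, ∏ p ∈ T, (624 * xs p / p) := by
        rw [Finset.sum_image hinj]
    _ ≤ _ := by
        refine Finset.sum_le_sum_of_subset_of_nonneg ?_ fun T _ _ => ?_
        · intro T hT
          rw [Finset.mem_image] at hT
          obtain ⟨d, hd, rfl⟩ := hT
          rw [Finset.mem_filter, mem_Ioc] at hd
          rw [Finset.mem_powerset]
          intro p hp
          have h2 := Nat.prime_of_mem_primeFactors hp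
          have h3 := Nat.le_of_dvd hd.1.1 (Nat.dvd_of_mem_primeFactors hp)
          rw [hP, Finset.mem_filter, mem_Ioc]
          exact ⟨⟨h2.pos, h3.trans hd.1.2⟩, h2⟩
        · exact Finset.prod_nonneg fun p _ => by have := xs_nn p; positivity

/-- the sum over the squarefree integers -/
lemma UU_sum_le (N : ℕ) : ∑ f ∈ (Ioc 0 N).filter Squarefree, UU f / f ≤ Cb * (1 + Real.log N) := by
  rcases Nat.eq_zero_or_pos N with rfl | hN
  · simp
    unfold Cb
    positivity
  have h1 : ∑ f ∈ (Ioc 0 N).filter Squarefree, UU f / f =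
      ∑ f ∈ (Ioc 0 N).filter Squarefree, ∑ d ∈ (Ioc 0 N).filter Squarefree,
        if d ∣ f then bb d / f else 0 := by
    refine Finset.sum_congr rfl fun f hf => ?_
    rw [Finset.mem_filter, mem_Ioc] at hf
    rw [UU_eq hf.2, Finset.sum_div, ← Finset.sum_filter]
    refine Finset.sum_congr ?_ fun _ _ => rfl
    ext d
    simp only [Finset.mem_filter, mem_Ioc, Nat.mem_divisors]
    constructor
    · rintro ⟨h1, h2⟩
      exact ⟨⟨⟨Nat.pos_of_dvd_of_pos h1 hf.1.1, (Nat.le_of_dvd hf.1.1 h1).trans hf.1.2⟩,
        hf.2.squarefree_of_dvd h1⟩, h1⟩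
    · rintro ⟨h1, h2⟩
      exact ⟨h2, by omega⟩
  rw [h1, Finset.sum_comm]
  calc ∑ d ∈ (Ioc 0 N).filter Squarefree, ∑ f ∈ (Ioc 0 N).filter Squarefree,
        (if d ∣ f then bb d / f else 0)
      ≤ ∑ d ∈ (Ioc 0 N).filter Squarefree, bb d / d * (1 + Real.log N) := by
        refine Finset.sum_le_sum fun d hd => ?_
        rw [Finset.mem_filter, mem_Ioc] at hd
        have hd0 : (0 : ℝ) < d := by exact_mod_cast hd.1.1
        have hbd := bb_nn d
        calc ∑ f ∈ (Ioc 0 N).filter Squarefree, (if d ∣ f then bb d / f else 0)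
            ≤ ∑ f ∈ Ioc 0 N, (if d ∣ f then bb d / f else 0) := by
              refine Finset.sum_le_sum_of_subset_of_nonneg (Finset.filter_subset _ _) ?_
              intro f _ _
              split_ifs
              · positivity
              · exact le_rfl
          _ = ∑ f ∈ (Ioc 0 N).filter (fun f => d ∣ f), bb d / f := by rw [Finset.sum_filter]
          _ = ∑ k ∈ Ioc 0 (N / d), bb d / d * (k : ℝ)⁻¹ := by
              refine Finset.sum_nbij' (fun n => n / d) (fun k => d * k) ?_ ?_ ?_ ?_ ?_
              · intro n hn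
                rw [Finset.mem_filter, mem_Ioc] at hn
                rw [mem_Ioc]
                exact ⟨Nat.div_pos (Nat.le_of_dvd hn.1.1 hn.2) hd.1.1, Nat.div_le_div_right hn.1.2⟩
              · intro k hk
                rw [mem_Ioc] at hk
                rw [Finset.mem_filter, mem_Ioc]
                refine ⟨⟨Nat.mul_pos hd.1.1 hk.1, ?_⟩, dvd_mul_right _ _⟩
                rw [mul_comm]
                exact (Nat.le_div_iff_mul_le hd.1.1).1 hk.2
              · intro n hn
                rw [Finset.mem_filter] at hn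
                exact Nat.mul_div_cancel' hn.2
              · intro k _
                exact Nat.mul_div_cancel_left k hd.1.1
              · intro n hn
                rw [Finset.mem_filter, mem_Ioc] at hn
                obtain ⟨k, rfl⟩ := hn.2
                rw [Nat.mul_div_cancel_left k hd.1.1]
                have hk0 : (k : ℝ) ≠ 0 := by
                  have : k ≠ 0 := by rintro rfl; simp at hn
                  exact_mod_cast this
                push_cast
                field_simp
          _ = bb d / d * ∑ k ∈ Ioc 0 (N / d), (k : ℝ)⁻¹ := by rw [Finset.mul_sum]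
          _ ≤ bb d / d * (1 + Real.log N) := by
              refine mul_le_mul_of_nonneg_left ?_ (by positivity)
              refine le_trans ?_ (sum_inv_le N)
              refine Finset.sum_le_sum_of_subset_of_nonneg
                (Finset.Ioc_subset_Ioc_right (Nat.div_le_self N d)) fun _ _ _ => by positivity
    _ = (∑ d ∈ (Ioc 0 N).filter Squarefree, bb d / d) * (1 + Real.log N) := by
        rw [Finset.sum_mul]
    _ ≤ _ := by
        refine mul_le_mul_of_nonneg_right (bb_sum_le N) ?_
        have : 0 ≤ Real.log N := Real.log_nonneg (by exact_mod_cast hN)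
        linarith

end Pool.Agent.E8helper22.MW
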