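import Pool.Agent.E8helper22.MW.BV3

/-!
# The mean square of Selberg's weights: diagonalisation
-/

set_option autoImplicit false

namespace Pool.Agent.E8helper22.MW

open Finset Filter Topology

/-- `∑_{d | n} μ(d) (x - log d)⁺` -/
noncomputable def T1 (x : ℝ) (n : ℕ) : ℝ := ∑ d ∈ n.divisors, mu d * max (x - Real.log d) 0

/-- `ζ(s)` for real `s > 1` -/
noncomputable def ze (s : ℝ) : ℝ := ∑' n : ℕ, (n : ℝ) ^ (-s)

lemma ze_summable {s : ℝ} (hs : 1 < s) : Summable fun n : ℕ => (n : ℝ) ^ (-s) :=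
  Real.summable_nat_rpow.2 (by linarith)

lemma ze_nn (s : ℝ) : 0 ≤ ze s := tsum_nonneg fun n => by positivity

lemma tele {κ : ℝ} (hκ : 0 < κ) {n : ℕ} (hn : 2 ≤ n) :
    (n : ℝ) ^ (-(1 + κ)) ≤ (((n : ℝ) - 1) ^ (-κ) - (n : ℝ) ^ (-κ)) / κ := by
  have h2 : (2 : ℝ) ≤ n := by exact_mod_cast hn
  have hn0 : (0 : ℝ) < n := by linarith
  have hm0 : (0 : ℝ) < (n : ℝ) - 1 := by linarith
  rw [le_div_iff₀ hκ]
  have h3 : (1 : ℝ) / n ≤ Real.log n - Real.log (n - 1) := by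
    have h4 := Real.log_le_sub_one_of_pos (x := ((n : ℝ) - 1) / n) (by positivity)
    rw [Real.log_div hm0.ne' hn0.ne'] at h4
    have h5 : ((n : ℝ) - 1) / n - 1 = -(1 / n) := by field_simp; ring
    linarith
  have h4 : ((n : ℝ) - 1) ^ (-κ) = (n : ℝ) ^ (-κ) * Real.exp (κ * (Real.log n - Real.log (n - 1))) := by
    rw [Real.rpow_def_of_pos hm0, Real.rpow_def_of_pos hn0, ← Real.exp_add]
    congr 1
    ring
  have h5 : 1 + κ * (1 / n) ≤ Real.exp (κ * (Real.log n - Real.log (n - 1))) := by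
    have h6 := Real.add_one_le_exp (κ * (Real.log n - Real.log (n - 1)))
    have h7 := mul_le_mul_of_nonneg_left h3 hκ.le
    linarith
  have h6 : (n : ℝ) ^ (-(1 + κ)) = (n : ℝ) ^ (-κ) * (1 / n) := by
    rw [neg_add, add_comm, Real.rpow_add hn0, Real.rpow_neg_one, one_div]
  have h7 : 0 < (n : ℝ) ^ (-κ) := Real.rpow_pos_of_pos hn0 _
  rw [h4, h6]
  nlinarith

lemma ze_le {κ : ℝ} (hκ : 0 < κ) : ze (1 + κ) ≤ 1 + 1 / κ := by
  unfold ze
  refine (ze_summable (by linarith)).tsum_le_of_sum_range_le fun N => ?_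
  have key : ∀ N : ℕ, ∑ n ∈ range (N + 2), (n : ℝ) ^ (-(1 + κ)) ≤
      1 + (1 - ((N : ℝ) + 1) ^ (-κ)) / κ := by
    intro N
    induction N with
    | zero =>
      rw [Finset.sum_range_succ, Finset.sum_range_one]
      norm_num
      rw [Real.zero_rpow (by linarith)]
    | succ N ih =>
      rw [Finset.sum_range_succ]
      have h1 := tele hκ (n := N + 2) (by omega)
      push_cast at h1 ⊢
      have h2 : (N : ℝ) + 2 - 1 = N + 1 := by ring
      rw [h2] at h1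
      have h3 : (N : ℝ) + 1 + 1 = N + 2 := by ring
      rw [h3]
      have h4 : 1 + (1 - ((N : ℝ) + 2) ^ (-κ)) / κ = 1 + (1 - ((N : ℝ) + 1) ^ (-κ)) / κ +
          (((N : ℝ) + 1) ^ (-κ) - ((N : ℝ) + 2) ^ (-κ)) / κ := by ring
      linarith
  calc ∑ n ∈ range N, (n : ℝ) ^ (-(1 + κ)) ≤ ∑ n ∈ range (N + 2), (n : ℝ) ^ (-(1 + κ)) :=
        Finset.sum_le_sum_of_subset_of_nonneg (Finset.range_subset_range.2 (by omega))
          fun _ _ _ => by positivity
    _ ≤ 1 + (1 - ((N : ℝ) + 1) ^ (-κ)) / κ := key N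
    _ ≤ 1 + 1 / κ := by
        have : 0 < ((N : ℝ) + 1) ^ (-κ) := by positivity
        gcongr
        linarith

/-- the sum over the multiples of `m` -/
lemma tsum_mult {s : ℝ} {m : ℕ} (hm : 0 < m) :
    ∑' n : ℕ, (if m ∣ n then (n : ℝ) ^ (-s) else 0) = (m : ℝ) ^ (-s) * ze s := by
  have hinj : Function.Injective fun k : ℕ => m * k := fun a b h => Nat.eq_of_mul_eq_mul_left hm h
  have h1 := hinj.tsum_eq (f := fun n : ℕ => if m ∣ n then (n : ℝ) ^ (-s) else 0) (by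
    intro n hn
    rw [Function.mem_support] at hn
    by_contra hc
    apply hn
    rw [if_neg]
    rintro ⟨k, hk⟩
    exact hc ⟨k, hk.symm⟩)
  rw [← h1]
  unfold ze
  rw [← tsum_mul_left]
  refine tsum_congr fun k => ?_
  rw [if_pos (dvd_mul_right m k)]
  push_cast
  rw [Real.mul_rpow (by positivity) (by positivity)]

/-- the weights -/
noncomputable def lam (x : ℝ) (d : ℕ) : ℝ := mu d * max (x - Real.log d) 0

lemma lam_zero_of_not_sqf (x : ℝ) {d : ℕ} (h : ¬ Squarefree d) : lam x d = 0 := by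
  unfold lam mu
  rw [ArithmeticFunction.moebius_eq_zero_of_not_squarefree h]
  simp

lemma lam_zero_of_gt {x : ℝ} {d : ℕ} (h : ⌊Real.exp x⌋₊ < d) : lam x d = 0 := by
  have h2 := (Nat.floor_lt (Real.exp_pos x).le).1 h
  have h3 : x < Real.log d := by
    rw [Real.lt_log_iff_exp_lt (by exact_mod_cast (Nat.zero_le _).trans_lt h)]
    exact h2
  unfold lam
  rw [max_eq_right (by linarith), mul_zero]

lemma T1_eq (x : ℝ) {n : ℕ} (hn : n ≠ 0) :
    T1 x n = ∑ d ∈ Ioc 0 ⌊Real.exp x⌋₊, if d ∣ n then lam x d else 0 := by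
  unfold T1
  rw [← Finset.sum_filter]
  have h1 : (Ioc 0 ⌊Real.exp x⌋₊).filter (fun d => d ∣ n) =
      n.divisors.filter (fun d => d ≤ ⌊Real.exp x⌋₊) := by
    ext d
    simp only [Finset.mem_filter, mem_Ioc, Nat.mem_divisors]
    constructor
    · rintro ⟨⟨h1, h2⟩, h3⟩
      exact ⟨⟨h3, hn⟩, h2⟩
    · rintro ⟨⟨h1, h2⟩, h3⟩
      exact ⟨⟨Nat.pos_of_dvd_of_pos h1 (Nat.pos_of_ne_zero hn), h3⟩, h1⟩
  rw [h1, Finset.sum_filter]
  refine Finset.sum_congr rfl fun d _ => ?_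
  split_ifs with h
  · rfl
  · exact lam_zero_of_gt (not_le.1 h)

/-- the sum of squares as a quadratic form -/
lemma sq_sum_eq (x : ℝ) {s : ℝ} (hs : 1 < s) :
    HasSum (fun n : ℕ => (n : ℝ) ^ (-s) * T1 x n ^ 2)
      (ze s * ∑ d ∈ Ioc 0 ⌊Real.exp x⌋₊, ∑ e ∈ Ioc 0 ⌊Real.exp x⌋₊,
        lam x d * lam x e * ((Nat.lcm d e : ℕ) : ℝ) ^ (-s)) := by
  set D := ⌊Real.exp x⌋₊ with hD
  have h1 : ∀ n : ℕ, (n : ℝ) ^ (-s) * T1 x n ^ 2 = ∑ d ∈ Ioc 0 D, ∑ e ∈ Ioc 0 D,
      lam x d * lam x e * (if Nat.lcm d e ∣ n then (n : ℝ) ^ (-s) else 0) := by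
    intro n
    rcases eq_or_ne n 0 with rfl | hn
    · rw [Nat.cast_zero, Real.zero_rpow (by linarith)]
      simp
    rw [T1_eq x hn, sq, Finset.sum_mul_sum, Finset.mul_sum]
    refine Finset.sum_congr rfl fun d _ => ?_
    rw [Finset.mul_sum]
    refine Finset.sum_congr rfl fun e _ => ?_
    by_cases h1 : d ∣ n
    · by_cases h2 : e ∣ n
      · rw [if_pos h1, if_pos h2, if_pos (Nat.lcm_dvd h1 h2)]
        ring
      · rw [if_neg h2, if_neg (fun h => h2 ((Nat.dvd_lcm_right d e).trans h))]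
        ring
    · rw [if_neg h1, if_neg (fun h => h1 ((Nat.dvd_lcm_left d e).trans h))]
      ring
  simp_rw [h1]
  rw [Finset.mul_sum]
  refine hasSum_sum fun d hd => ?_
  rw [Finset.mul_sum]
  refine hasSum_sum fun e he => ?_
  rw [mem_Ioc] at hd he
  have hm : 0 < Nat.lcm d e := Nat.lcm_pos hd.1 he.1
  have h2 : HasSum (fun n : ℕ => if Nat.lcm d e ∣ n then (n : ℝ) ^ (-s) else 0)
      (((Nat.lcm d e : ℕ) : ℝ) ^ (-s) * ze s) := by
    rw [← tsum_mult hm]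
    refine Summable.hasSum ?_
    refine Summable.of_nonneg_of_le (fun n => ?_) (fun n => ?_) (ze_summable hs)
    · split_ifs <;> positivity
    · split_ifs
      · exact le_rfl
      · positivity
  have h3 := h2.mul_left (lam x d * lam x e)
  have e1 : ze s * (lam x d * lam x e * ((Nat.lcm d e : ℕ) : ℝ) ^ (-s)) =
      lam x d * lam x e * (((Nat.lcm d e : ℕ) : ℝ) ^ (-s) * ze s) := by ring
  rw [e1]
  exact h3

/-- Jordan's totient -/
noncomputable def Jo (s : ℝ) (f : ℕ) : ℝ := ∏ p ∈ f.primeFactors, ((p : ℝ) ^ s - 1)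

lemma prod_rpow {g : ℕ} (hg : Squarefree g) (s : ℝ) :
    ∏ p ∈ g.primeFactors, (p : ℝ) ^ s = (g : ℝ) ^ s := by
  rw [Real.finsetProd_rpow _ _ (fun p _ => by positivity)]
  congr 1
  have := Nat.prod_primeFactors_of_squarefree hg
  conv_rhs => rw [← this]
  push_cast
  rfl

lemma Jo_sum {g : ℕ} (hg : Squarefree g) (s : ℝ) : (g : ℝ) ^ s = ∑ f ∈ g.divisors, Jo s f := by
  rw [← prod_rpow hg]
  have h := mult_prod_sum (fun p => (p : ℝ) ^ s - 1) hg
  unfold Jo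
  rw [← h]
  refine Finset.prod_congr rfl fun p _ => ?_
  ring

lemma Jo_nn {s : ℝ} (hs : 0 ≤ s) (f : ℕ) : 0 ≤ Jo s f := by
  refine Finset.prod_nonneg fun p hp => ?_
  have h1 : (1 : ℝ) ≤ p := by exact_mod_cast (Nat.prime_of_mem_primeFactors hp).one_le
  have := Real.one_le_rpow h1 hs
  linarith

lemma Jo_le {s : ℝ} (hs : 0 ≤ s) {f : ℕ} (hf : Squarefree f) : Jo s f ≤ (f : ℝ) ^ s := by
  rw [← prod_rpow hf]
  refine Finset.prod_le_prod (fun p hp => ?_) fun p _ => by linarith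
  have h1 : (1 : ℝ) ≤ p := by exact_mod_cast (Nat.prime_of_mem_primeFactors hp).one_le
  have := Real.one_le_rpow h1 hs
  linarith

/-- the diagonalising sums -/
noncomputable def Af (x s : ℝ) (f : ℕ) : ℝ :=
  ∑ d ∈ Ioc 0 ⌊Real.exp x⌋₊, if f ∣ d then lam x d * (d : ℝ) ^ (-s) else 0

lemma diag (x s : ℝ) :
    ∑ d ∈ Ioc 0 ⌊Real.exp x⌋₊, ∑ e ∈ Ioc 0 ⌊Real.exp x⌋₊,
        lam x d * lam x e * ((Nat.lcm d e : ℕ) : ℝ) ^ (-s) =
      ∑ f ∈ Ioc 0 ⌊Real.exp x⌋₊, Jo s f * Af x s f ^ 2 := by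
  set D := ⌊Real.exp x⌋₊ with hD
  have h1 : ∀ d ∈ Ioc 0 D, ∀ e ∈ Ioc 0 D, lam x d * lam x e * ((Nat.lcm d e : ℕ) : ℝ) ^ (-s) =
      ∑ f ∈ Ioc 0 D, Jo s f * ((if f ∣ d then lam x d * (d : ℝ) ^ (-s) else 0) *
        (if f ∣ e then lam x e * (e : ℝ) ^ (-s) else 0)) := by
    intro d hd e he
    rw [mem_Ioc] at hd he
    by_cases hsd : Squarefree d
    · have hg : Squarefree (Nat.gcd d e) := hsd.squarefree_of_dvd (Nat.gcd_dvd_left d e)
      have hg0 : 0 < Nat.gcd d e := Nat.gcd_pos_of_pos_left e hd.1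
      have hdr : (0 : ℝ) < d := by exact_mod_cast hd.1
      have her : (0 : ℝ) < e := by exact_mod_cast he.1
      have hgr : (0 : ℝ) < Nat.gcd d e := by exact_mod_cast hg0
      have hlr : (0 : ℝ) < Nat.lcm d e := by exact_mod_cast Nat.lcm_pos hd.1 he.1
      have h2 : ((Nat.lcm d e : ℕ) : ℝ) ^ (-s) =
          (d : ℝ) ^ (-s) * (e : ℝ) ^ (-s) * ((Nat.gcd d e : ℕ) : ℝ) ^ s := by
        rw [← Real.mul_rpow hdr.le her.le, show (d : ℝ) * e = ((Nat.gcd d e : ℕ) : ℝ) *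
          ((Nat.lcm d e : ℕ) : ℝ) by exact_mod_cast (Nat.gcd_mul_lcm d e).symm,
          Real.mul_rpow hgr.le hlr.le, mul_comm, ← mul_assoc, ← Real.rpow_add hgr, add_neg_cancel,
          Real.rpow_zero, one_mul]
      rw [h2, Jo_sum hg, Finset.mul_sum, Finset.mul_sum]
      have h3 : ∀ f ∈ Ioc 0 D, Jo s f * ((if f ∣ d then lam x d * (d : ℝ) ^ (-s) else 0) *
          (if f ∣ e then lam x e * (e : ℝ) ^ (-s) else 0)) = if f ∣ Nat.gcd d e then
            lam x d * lam x e * ((d : ℝ) ^ (-s) * (e : ℝ) ^ (-s) * Jo s f) else 0 := by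
        intro f _
        by_cases g1 : f ∣ d
        · by_cases g2 : f ∣ e
          · rw [if_pos g1, if_pos g2, if_pos (Nat.dvd_gcd g1 g2)]
            ring
          · have g3 : ¬ f ∣ Nat.gcd d e := fun h => g2 (h.trans (Nat.gcd_dvd_right d e))
            rw [if_neg g2, if_neg g3]
            ring
        · have g3 : ¬ f ∣ Nat.gcd d e := fun h => g1 (h.trans (Nat.gcd_dvd_left d e))
          rw [if_neg g1, if_neg g3]
          ring
      rw [Finset.sum_congr rfl h3, ← Finset.sum_filter]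
      refine Finset.sum_congr ?_ fun _ _ => rfl
      ext f
      simp only [Finset.mem_filter, mem_Ioc, Nat.mem_divisors]
      constructor
      · rintro ⟨h1, h2⟩
        refine ⟨⟨Nat.pos_of_dvd_of_pos h1 hg0, ?_⟩, h1⟩
        exact (Nat.le_of_dvd hd.1 (h1.trans (Nat.gcd_dvd_left d e))).trans hd.2
      · rintro ⟨h1, h2⟩
        exact ⟨h2, hg0.ne'⟩
    · rw [lam_zero_of_not_sqf x hsd]
      symm
      rw [Finset.sum_eq_zero]
      · ring
      · intro f _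
        split_ifs <;> ring
  rw [Finset.sum_congr rfl fun d hd => Finset.sum_congr rfl (h1 d hd)]
  have h2 : ∀ d ∈ Ioc 0 D, ∑ e ∈ Ioc 0 D, ∑ f ∈ Ioc 0 D, Jo s f *
      ((if f ∣ d then lam x d * (d : ℝ) ^ (-s) else 0) *
        (if f ∣ e then lam x e * (e : ℝ) ^ (-s) else 0)) = ∑ f ∈ Ioc 0 D, ∑ e ∈ Ioc 0 D, Jo s f *
      ((if f ∣ d then lam x d * (d : ℝ) ^ (-s) else 0) *
        (if f ∣ e then lam x e * (e : ℝ) ^ (-s) else 0)) := fun d _ => Finset.sum_comm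
  rw [Finset.sum_congr rfl h2, Finset.sum_comm]
  refine Finset.sum_congr rfl fun f _ => ?_
  unfold Af
  rw [sq, Finset.sum_mul_sum, Finset.mul_sum]
  refine Finset.sum_congr rfl fun d _ => ?_
  rw [Finset.mul_sum]

lemma Af_eq (x : ℝ) {κ : ℝ} {f : ℕ} (hf0 : 0 < f) :
    Af x (1 + κ) f = mu f * (f : ℝ) ^ (-(1 + κ)) *
      BK f (⌊Real.exp x⌋₊ / f) κ (x - Real.log f) := by
  have hfr : (0 : ℝ) < f := by exact_mod_cast hf0
  unfold Af BK
  rw [← Finset.sum_filter, Finset.mul_sum]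
  refine Finset.sum_nbij' (fun n => n / f) (fun k => f * k) ?_ ?_ ?_ ?_ ?_
  · intro n hn
    rw [Finset.mem_filter, mem_Ioc] at hn
    rw [mem_Ioc]
    exact ⟨Nat.div_pos (Nat.le_of_dvd hn.1.1 hn.2) hf0, Nat.div_le_div_right hn.1.2⟩
  · intro k hk
    rw [mem_Ioc] at hk
    rw [Finset.mem_filter, mem_Ioc]
    refine ⟨⟨Nat.mul_pos hf0 hk.1, ?_⟩, dvd_mul_right _ _⟩
    rw [mul_comm]
    exact (Nat.le_div_iff_mul_le hf0).1 hk.2
  · intro n hn
    rw [Finset.mem_filter] at hn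
    exact Nat.mul_div_cancel' hn.2
  · intro k _
    exact Nat.mul_div_cancel_left k hf0
  · intro n hn
    rw [Finset.mem_filter, mem_Ioc] at hn
    obtain ⟨k, rfl⟩ := hn.2
    rw [Nat.mul_div_cancel_left k hf0]
    have hk : 0 < k := Nat.pos_of_mul_pos_left hn.1.1
    have hkr : (0 : ℝ) < k := by exact_mod_cast hk
    rw [fA_apply, if_neg hk.ne']
    unfold lam mu
    by_cases hc : k.Coprime f
    · rw [if_pos hc, ArithmeticFunction.isMultiplicative_moebius.map_mul_of_coprime hc.symm]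
      push_cast
      rw [Real.mul_rpow hfr.le hkr.le, Real.log_mul hfr.ne' hkr.ne']
      have e1 : (k : ℝ) ^ (-(1 + κ)) = (k : ℝ)⁻¹ * Real.exp (-κ * Real.log k) := by
        rw [neg_add, Real.rpow_add hkr, Real.rpow_neg_one, Real.rpow_def_of_pos hkr]
        congr 2
        ring
      rw [e1, sub_sub]
      ring
    · rw [if_neg hc, ArithmeticFunction.moebius_eq_zero_of_not_squarefree]
      · simp
      · intro hs
        exact hc (Nat.Coprime.symm (Nat.squarefree_mul_iff.1 hs).1)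

/-- the constant -/
noncomputable def Cv : ℝ := 121 * Cb

lemma Cv_pos : 0 < Cv := by unfold Cv Cb; positivity

lemma diag_le {x κ : ℝ} (hx : 0 ≤ x) (hκ : 0 ≤ κ) :
    ∑ f ∈ Ioc 0 ⌊Real.exp x⌋₊, Jo (1 + κ) f * Af x (1 + κ) f ^ 2 ≤
      Cv * ((1 + κ * x) ^ 2 * (1 + x)) := by
  set D := ⌊Real.exp x⌋₊ with hD
  have hs : (0 : ℝ) ≤ 1 + κ := by linarith
  have hD1 : 1 ≤ D := Nat.le_floor (by rw [Nat.cast_one, ← Real.exp_zero]; exact Real.exp_le_exp.2 hx)
  have h1 : ∀ f ∈ Ioc 0 D, Jo (1 + κ) f * Af x (1 + κ) f ^ 2 ≤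
      if Squarefree f then 121 * (1 + κ * x) ^ 2 * (UU f / f) else 0 := by
    intro f hf
    rw [mem_Ioc] at hf
    have hfr : (0 : ℝ) < f := by exact_mod_cast hf.1
    have hf1 : (1 : ℝ) ≤ f := by exact_mod_cast hf.1
    split_ifs with hsq
    · have hfe : (f : ℝ) ≤ Real.exp x := (Nat.le_floor_iff (Real.exp_pos x).le).1 hf.2
      have hl : Real.log f ≤ x := by
        have := Real.log_le_log hfr hfe
        rwa [Real.log_exp] at this
      have hl0 : 0 ≤ Real.log f := Real.log_nonneg hf1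
      have hN : Real.exp (x - Real.log f) < ((D / f : ℕ) : ℝ) + 1 := by
        rw [Real.exp_sub, Real.exp_log hfr, hD, ← Nat.floor_div_natCast]
        exact Nat.lt_floor_add_one _
      have h2 := BK_bd hsq hκ (z := x - Real.log f) (by linarith) hN
      rw [Af_eq x hf.1, mul_pow, mul_pow]
      have h3 : BK f (D / f) κ (x - Real.log f) ^ 2 ≤ (11 * VV f ^ 2 * (1 + κ * x)) ^ 2 := by
        rw [← sq_abs]
        refine pow_le_pow_left₀ (abs_nonneg _) (h2.trans ?_) 2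
        have : κ * (x - Real.log f) ≤ κ * x := mul_le_mul_of_nonneg_left (by linarith) hκ
        gcongr
      have h4 : mu f ^ 2 ≤ 1 := by
        rw [← sq_abs]
        have := abs_mu_le f
        have h0 := abs_nonneg (mu f)
        nlinarith
      have h5 : Jo (1 + κ) f * (((f : ℝ) ^ (-(1 + κ))) ^ 2) ≤ 1 / f := by
        have h6 := Jo_le hs hsq
        have h7 : (0 : ℝ) < (f : ℝ) ^ (-(1 + κ)) := Real.rpow_pos_of_pos hfr _
        calc Jo (1 + κ) f * (((f : ℝ) ^ (-(1 + κ))) ^ 2)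
            ≤ (f : ℝ) ^ (1 + κ) * (((f : ℝ) ^ (-(1 + κ))) ^ 2) := by gcongr
          _ = (f : ℝ) ^ (-(1 + κ)) := by
              rw [sq, ← mul_assoc, ← Real.rpow_add hfr, add_neg_cancel, Real.rpow_zero, one_mul]
          _ ≤ (f : ℝ) ^ (-1 : ℝ) := Real.rpow_le_rpow_of_exponent_le hf1 (by linarith)
          _ = 1 / f := by rw [Real.rpow_neg_one, one_div]
      have hJ := Jo_nn hs f
      have hB := sq_nonneg (BK f (D / f) κ (x - Real.log f))
      calc Jo (1 + κ) f * (mu f ^ 2 * ((f : ℝ) ^ (-(1 + κ))) ^ 2 *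
            BK f (D / f) κ (x - Real.log f) ^ 2)
          = mu f ^ 2 * (Jo (1 + κ) f * ((f : ℝ) ^ (-(1 + κ))) ^ 2) *
            BK f (D / f) κ (x - Real.log f) ^ 2 := by ring
        _ ≤ 1 * (1 / f) * (11 * VV f ^ 2 * (1 + κ * x)) ^ 2 := by gcongr
        _ = 121 * (1 + κ * x) ^ 2 * ((VV f ^ 2) ^ 2 / f) := by ring
        _ ≤ _ := by
            have := VV_sq_le f
            gcongr
    · have h2 : Af x (1 + κ) f = 0 := by
        unfold Af
        refine Finset.sum_eq_zero fun d _ => ?_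
        split_ifs with hd
        · rw [lam_zero_of_not_sqf x (fun h => hsq (h.squarefree_of_dvd hd)), zero_mul]
        · rfl
      rw [h2]
      simp
  refine (Finset.sum_le_sum h1).trans ?_
  rw [← Finset.sum_filter, ← Finset.mul_sum]
  have h2 := UU_sum_le D
  have h3 : Real.log D ≤ x := by
    have h4 : (D : ℝ) ≤ Real.exp x := Nat.floor_le (Real.exp_pos x).le
    have := Real.log_le_log (by exact_mod_cast hD1) h4
    rwa [Real.log_exp] at this
  have hCb : 0 < Cb := by unfold Cb; positivity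
  calc 121 * (1 + κ * x) ^ 2 * ∑ f ∈ (Ioc 0 D).filter Squarefree, UU f / f
      ≤ 121 * (1 + κ * x) ^ 2 * (Cb * (1 + x)) := by
        refine mul_le_mul_of_nonneg_left (h2.trans ?_) (by positivity)
        gcongr
    _ = _ := by unfold Cv; ring

/-- **the mean square of Selberg's weights** -/
theorem T1_sq {x κ : ℝ} (hx : 0 ≤ x) (hκ : 0 < κ) :
    Summable (fun n : ℕ => (n : ℝ) ^ (-(1 + κ)) * T1 x n ^ 2) ∧
    ∑' n : ℕ, (n : ℝ) ^ (-(1 + κ)) * T1 x n ^ 2 ≤
      Cv * ((1 + κ * x) ^ 2 * (1 + x) * (1 + 1 / κ)) := by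
  have h := sq_sum_eq x (s := 1 + κ) (by linarith)
  refine ⟨h.summable, ?_⟩
  rw [h.tsum_eq, diag]
  have h1 := ze_le hκ
  have h2 := ze_nn (1 + κ)
  have h3 := diag_le hx hκ.le
  have h4 : 0 ≤ Cv * ((1 + κ * x) ^ 2 * (1 + x)) := by
    have := Cv_pos
    positivity
  calc _ ≤ (1 + 1 / κ) * (Cv * ((1 + κ * x) ^ 2 * (1 + x))) :=
        mul_le_mul h1 h3 (Finset.sum_nonneg fun f _ => mul_nonneg (Jo_nn (by linarith) f)
          (sq_nonneg _)) (by positivity)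
    _ = _ := by ring

end Pool.Agent.E8helper22.MW
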